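import Pool.Agent.Urel.Defs

/-!
# A calculus of first-order definable relations with parameters
-/

namespace Pool.Agent.Urel

open FirstOrder FirstOrder.Language

universe u v w

/-- Contexts: types whose elements encode finite tuples of elements of `M`. -/
class Ctx (M : Type u) (Γ : Type u) where
  n : ℕ
  enc : Γ → Fin n → M

instance (M : Type u) : Ctx M PUnit.{u + 1} := ⟨0, fun _ i => i.elim0⟩

instance (M : Type u) (Γ : Type u) [Ctx M Γ] : Ctx M (Γ × M) :=
  ⟨Ctx.n M Γ + 1, fun p => Fin.snoc (α := fun _ => M) (Ctx.enc p.1) p.2⟩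

section

variable (M : Type u) (Γ : Type u) [Ctx M Γ]

/-- the last variable -/
def vlast : Fin (Ctx.n M (Γ × M)) := Fin.last (Ctx.n M Γ)

/-- an earlier variable -/
def vcast (i : Fin (Ctx.n M Γ)) : Fin (Ctx.n M (Γ × M)) := Fin.castSucc i

end

section

variable {M : Type u} {Γ : Type u} [Ctx M Γ]

theorem enc_vlast (p : Γ × M) : Ctx.enc p (vlast M Γ) = p.2 := by
  simp [Ctx.enc, vlast]

theorem enc_vcast (p : Γ × M) (i : Fin (Ctx.n M Γ)) :
    Ctx.enc p (vcast M Γ i) = Ctx.enc p.1 i := by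
  simp [Ctx.enc, vcast]

theorem var_cases {motive : Fin (Ctx.n M (Γ × M)) → Prop} (h1 : motive (vlast M Γ))
    (h2 : ∀ i, motive (vcast M Γ i)) : ∀ i, motive i :=
  fun i => Fin.lastCases (motive := motive) h1 h2 i

/-- functions on variables by cases -/
def vsnoc {β : Type w} (f : Fin (Ctx.n M Γ) → β) (b : β) : Fin (Ctx.n M (Γ × M)) → β :=
  Fin.snoc (α := fun _ => β) f b

theorem vsnoc_vlast {β : Type w} (f : Fin (Ctx.n M Γ) → β) (b : β) :
    vsnoc f b (vlast M Γ) = b := by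
  simp [vsnoc, vlast]

theorem vsnoc_vcast {β : Type w} (f : Fin (Ctx.n M Γ) → β) (b : β) (i : Fin (Ctx.n M Γ)) :
    vsnoc f b (vcast M Γ i) = f i := by
  simp [vsnoc, vcast]

end

section

variable (L : FirstOrder.Language.{0, v}) (M : Type u) [L.Structure M]

/-- `P` is first-order definable, with parameters. -/
def FO {Γ : Type u} [Ctx M Γ] (P : Γ → Prop) : Prop :=
  ∃ φ : L.Formula (M ⊕ Fin (Ctx.n M Γ)), ∀ e, φ.Realize (Sum.elim id (Ctx.enc e)) ↔ P e

/-- the graph of `f` is first-order definable, with parameters. -/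
def FOF {Γ : Type u} [Ctx M Γ] (f : Γ → M) : Prop :=
  FO L M (fun p : Γ × M => p.2 = f p.1)

end

section

variable {L : FirstOrder.Language.{0, v}} {M : Type u} [L.Structure M]
variable {Γ Δ : Type u} [Ctx M Γ] [Ctx M Δ]

theorem FO.congr {P Q : Γ → Prop} (h : FO L M P) (hPQ : ∀ e, P e ↔ Q e) : FO L M Q := by
  obtain ⟨φ, hφ⟩ := h
  exact ⟨φ, fun e => (hφ e).trans (hPQ e)⟩

theorem FO.not {P : Γ → Prop} (h : FO L M P) : FO L M (fun e => ¬ P e) := by
  obtain ⟨φ, hφ⟩ := h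
  exact ⟨φ.not, fun e => by rw [Formula.realize_not, hφ]⟩

theorem FO.and {P Q : Γ → Prop} (h : FO L M P) (h' : FO L M Q) :
    FO L M (fun e => P e ∧ Q e) := by
  obtain ⟨φ, hφ⟩ := h
  obtain ⟨ψ, hψ⟩ := h'
  exact ⟨φ ⊓ ψ, fun e => by rw [Formula.realize_inf, hφ, hψ]⟩

theorem FO.or {P Q : Γ → Prop} (h : FO L M P) (h' : FO L M Q) :
    FO L M (fun e => P e ∨ Q e) := by
  obtain ⟨φ, hφ⟩ := h
  obtain ⟨ψ, hψ⟩ := h'
  exact ⟨φ ⊔ ψ, fun e => by rw [Formula.realize_sup, hφ, hψ]⟩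

theorem FO.imp {P Q : Γ → Prop} (h : FO L M P) (h' : FO L M Q) :
    FO L M (fun e => P e → Q e) := by
  obtain ⟨φ, hφ⟩ := h
  obtain ⟨ψ, hψ⟩ := h'
  exact ⟨φ.imp ψ, fun e => by rw [Formula.realize_imp, hφ, hψ]⟩

theorem FO.iff {P Q : Γ → Prop} (h : FO L M P) (h' : FO L M Q) :
    FO L M (fun e => P e ↔ Q e) := by
  obtain ⟨φ, hφ⟩ := h
  obtain ⟨ψ, hψ⟩ := h'
  exact ⟨φ.iff ψ, fun e => by rw [Formula.realize_iff, hφ, hψ]⟩

theorem FO.all {P : Γ → M → Prop} (h : FO L M (fun p : Γ × M => P p.1 p.2)) :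
    FO L M (fun e => ∀ x, P e x) := by
  obtain ⟨φ, hφ⟩ := h
  let g : M ⊕ Fin (Ctx.n M (Γ × M)) → (M ⊕ Fin (Ctx.n M Γ)) ⊕ Unit :=
    Sum.elim (fun m => Sum.inl (Sum.inl m))
      (vsnoc (fun i => Sum.inl (Sum.inr i)) (Sum.inr ()))
  refine ⟨(Formula.relabel g φ).iAlls Unit, fun e => ?_⟩
  rw [Formula.realize_iAlls]
  have key : ∀ i : Unit → M,
      (Formula.relabel g φ).Realize (fun a => Sum.elim (Sum.elim id (Ctx.enc e)) i a) ↔
        P e (i ()) := by
    intro i
    rw [Formula.realize_relabel]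
    have : (fun a => Sum.elim (Sum.elim id (Ctx.enc e)) i a) ∘ g =
        Sum.elim id (Ctx.enc (M := M) (e, i ())) := by
      funext a
      rcases a with m | j
      · rfl
      · revert j
        refine var_cases ?_ (fun j => ?_)
        · simp [g, vsnoc_vlast, enc_vlast]
        · simp [g, vsnoc_vcast, enc_vcast]
    rw [this]
    exact hφ (e, i ())
  constructor
  · intro h x
    exact (key (fun _ => x)).1 (h _)
  · intro h i
    exact (key i).2 (h _)

theorem FO.ex {P : Γ → M → Prop} (h : FO L M (fun p : Γ × M => P p.1 p.2)) :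
    FO L M (fun e => ∃ x, P e x) :=
  (FO.not (FO.all (P := fun e x => ¬ P e x) (FO.not h))).congr (fun e => by simp)

theorem FO.comap {P : Γ → Prop} (h : FO L M P) (f : Δ → Γ)
    (r : Fin (Ctx.n M Γ) → Fin (Ctx.n M Δ))
    (hr : ∀ d i, Ctx.enc (M := M) (f d) i = Ctx.enc d (r i)) : FO L M (fun d => P (f d)) := by
  obtain ⟨φ, hφ⟩ := h
  refine ⟨Formula.relabel (Sum.map id r) φ, fun d => ?_⟩
  rw [Formula.realize_relabel]
  have : Sum.elim id (Ctx.enc d) ∘ Sum.map id r = Sum.elim id (Ctx.enc (M := M) (f d)) := by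
    funext a
    rcases a with m | j
    · rfl
    · simp [hr]
  rw [this]
  exact hφ (f d)

theorem FO.weak {P : Γ → Prop} (h : FO L M P) : FO L M (fun p : Γ × M => P p.1) :=
  FO.comap h (fun p : Γ × M => p.1) (vcast M Γ) (fun d i => by simp [enc_vcast])

theorem FOF.weak {f : Γ → M} (h : FOF L M f) : FOF L M (fun p : Γ × M => f p.1) := by
  refine FO.comap (Δ := (Γ × M) × M) h (fun q => (q.1.1, q.2))
    (vsnoc (fun i => vcast M (Γ × M) (vcast M Γ i)) (vlast M (Γ × M)))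
    (fun d => var_cases ?_ (fun j => ?_))
  · rw [vsnoc_vlast, enc_vlast, enc_vlast]
  · rw [vsnoc_vcast, enc_vcast, enc_vcast, enc_vcast]

theorem FO.subst {R : Γ → M → Prop} {f : Γ → M} (hR : FO L M (fun p : Γ × M => R p.1 p.2))
    (hf : FOF L M f) : FO L M (fun e => R e (f e)) :=
  (FO.ex (P := fun e x => x = f e ∧ R e x) (FO.and hf hR)).congr (fun e => by simp)

theorem FOF.param (m : M) : FOF L M (fun _ : Γ => m) := by
  refine ⟨Term.equal (Term.var (Sum.inr (vlast M Γ))) (Term.var (Sum.inl m)), fun p => ?_⟩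
  simp [Term.equal, Formula.Realize, enc_vlast]

theorem FOF.var : FOF L M (fun p : Γ × M => p.2) := by
  refine ⟨Term.equal (Term.var (Sum.inr (vlast M (Γ × M))))
    (Term.var (Sum.inr (vcast M (Γ × M) (vlast M Γ)))), fun p => ?_⟩
  simp [Term.equal, Formula.Realize, enc_vlast, enc_vcast]

theorem FO.eq {f g : Γ → M} (hf : FOF L M f) (hg : FOF L M g) : FO L M (fun e => f e = g e) :=
  FO.subst (R := fun e x => x = g e) hg hf

theorem FO.rel1 {r : L.Relations 1} {f : Γ → M} (hf : FOF L M f) :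
    FO L M (fun e => Structure.RelMap r ![f e]) := by
  refine FO.subst (R := fun _ x => Structure.RelMap r ![x]) ?_ hf
  refine ⟨r.formula₁ (Term.var (Sum.inr (vlast M Γ))), fun p => ?_⟩
  rw [Formula.realize_rel₁]
  simp [enc_vlast]

theorem FO.rel2 {r : L.Relations 2} {f g : Γ → M} (hf : FOF L M f) (hg : FOF L M g) :
    FO L M (fun e => Structure.RelMap r ![f e, g e]) := by
  refine FO.subst (R := fun e x => Structure.RelMap r ![x, g e]) ?_ hf
  refine FO.subst (Γ := Γ × M) (R := fun e y => Structure.RelMap r ![e.2, y])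
    ?_ hg.weak
  refine ⟨r.formula₂ (Term.var (Sum.inr (vcast M (Γ × M) (vlast M Γ))))
    (Term.var (Sum.inr (vlast M (Γ × M)))), fun p => ?_⟩
  rw [Formula.realize_rel₂]
  simp [enc_vlast, enc_vcast]

end

end Pool.Agent.Urel
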