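import Mathlib

/-!
# Set theory and class theory with urelements

Definitions of the first-order language of urelement set theory, of the theory ZFCU, of the
two-sorted class theory `GBcU_R + Collection + Global Choice`, and of conservativity of the latter
over the former.  A theory is given by its models; provability is rendered by truth in all models.
-/

namespace Pool.Agent.Urel

open FirstOrder

universe u v w

/-- The relation symbols of the first-order language of urelement set theory: the unary
predicate `ure` (is a urelement) and the binary predicate `mem` (membership). -/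
inductive SymU : ℕ → Type
  | ure : SymU 1
  | mem : SymU 2

/-- The first-order language of urelement set theory. -/
def LU : FirstOrder.Language.{0, 0} := ⟨fun _ => Empty, SymU⟩

/-- The relation symbols of the language of urelement set theory with an additional unary
predicate symbol for each class `X : C` (membership in the class `X`). -/
inductive SymC (C : Type v) : ℕ → Type v
  | ure : SymC C 1
  | mem : SymC C 2
  | cls : C → SymC C 1

/-- The language of urelement set theory with class parameters from `C`.  Its first-order formulas
are the formulas with only first-order quantifiers and with class parameters. -/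
def LC (C : Type v) : FirstOrder.Language.{0, v} := ⟨fun _ => Empty, SymC C⟩

/-- A structure for the first-order language of urelement set theory. -/
class UStr (M : Type u) where
  /-- `ure x`: the object `x` is a urelement -/
  ure : M → Prop
  /-- `mem x y`: the object `x` is an element of the object `y` -/
  mem : M → M → Prop

/-- A second sort `C` of classes over `M`, with the membership relation between objects
and classes. -/
class CMem (M : Type u) (C : Type v) where
  /-- `cmem x X`: the object `x` is an element of the class `X` -/
  cmem : M → C → Prop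

export UStr (ure mem)
export CMem (cmem)

instance instLU (M : Type u) [UStr M] : LU.Structure M where
  funMap := fun f _ => Empty.elim f
  RelMap := fun r xs => match r, xs with
    | SymU.ure, xs => ure (xs 0)
    | SymU.mem, xs => mem (xs 0) (xs 1)

instance instLC (M : Type u) (C : Type v) [UStr M] [CMem M C] : (LC C).Structure M where
  funMap := fun f _ => Empty.elim f
  RelMap := fun r xs => match r, xs with
    | SymC.ure, xs => ure (xs 0)
    | SymC.mem, xs => mem (xs 0) (xs 1)
    | SymC.cls X, xs => cmem (xs 0) X

/-- The assignment of variables that gives the variable `0` the value `x` and the variable `n + 1`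
the value `v n`. -/
def cons {M : Type u} (x : M) (v : ℕ → M) : ℕ → M
  | 0 => x
  | n + 1 => v n

section

variable {M : Type u} [UStr M]

/-- `x` is a set, that is, not a urelement. -/
def IsSet (x : M) : Prop := ¬ ure x

/-- `z` is the set `{x, y}`. -/
def IsUPair (z x y : M) : Prop := IsSet z ∧ ∀ w, mem w z ↔ w = x ∨ w = y

/-- `p` is the Kuratowski ordered pair `(x, y) = {{x}, {x, y}}`. -/
def IsOPair (p x y : M) : Prop := IsSet p ∧ ∀ z, mem z p ↔ IsUPair z x x ∨ IsUPair z x y

/-- The ordered pair `(x, y)` is an element of the object `r`. -/
def SRel (r x y : M) : Prop := ∃ p, IsOPair p x y ∧ mem p r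

/-- The set `r` of ordered pairs is a (strict) well-ordering of the set `x`: it is transitive,
irreflexive and total on `x`, and each non-empty set `s ⊆ x` has an `r`-least element. -/
def WellOrders (r x : M) : Prop :=
  (∀ a b c, mem a x → mem b x → mem c x → SRel r a b → SRel r b c → SRel r a c) ∧
  (∀ a, mem a x → ¬ SRel r a a) ∧
  (∀ a b, mem a x → mem b x → a ≠ b → SRel r a b ∨ SRel r b a) ∧
  (∀ s, IsSet s → (∃ a, mem a s) → (∀ a, mem a s → mem a x) →
    ∃ m, mem m s ∧ ∀ a, mem a s → a ≠ m → SRel r m a)

end

/-- The axioms of `ZU`. -/
structure ZU (M : Type u) [UStr M] : Prop where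
  /-- urelements have no members -/
  urelements : ∀ x y : M, ure y → ¬ mem x y
  /-- extensionality for sets -/
  extensionality : ∀ x y : M, IsSet x → IsSet y → (∀ z, mem z x ↔ mem z y) → x = y
  /-- foundation -/
  foundation : ∀ x : M, (∃ y, mem y x) → ∃ y, mem y x ∧ ∀ z, mem z x → ¬ mem z y
  /-- pairing -/
  pairing : ∀ x y : M, ∃ z, IsUPair z x y
  /-- union -/
  union : ∀ x : M, IsSet x → ∃ z, IsSet z ∧ ∀ w, mem w z ↔ ∃ y, mem y x ∧ mem w y
  /-- powerset: all subsets of `x` that are sets form a set -/
  powerset : ∀ x : M, IsSet x →
    ∃ z, IsSet z ∧ ∀ w, mem w z ↔ IsSet w ∧ ∀ a, mem a w → mem a x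
  /-- infinity: some set contains the empty set and is closed under `y ↦ y ∪ {y}` -/
  infinity : ∃ x : M, IsSet x ∧ (∃ e, mem e x ∧ IsSet e ∧ ∀ a, ¬ mem a e) ∧
    ∀ y, mem y x → ∃ z, mem z x ∧ IsSet z ∧ ∀ a, mem a z ↔ mem a y ∨ a = y
  /-- the separation scheme: for each formula `φ(x, parameters)` (the variable `0` is `x`) -/
  separation : ∀ (φ : LU.Formula ℕ) (v : ℕ → M) (a : M), IsSet a →
    ∃ b, IsSet b ∧ ∀ x, mem x b ↔ mem x a ∧ φ.Realize (cons x v)

/-- The axiom of choice: every set is well-orderable. -/
def AxChoice (M : Type u) [UStr M] : Prop :=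
  ∀ x : M, IsSet x → ∃ r, IsSet r ∧ WellOrders r x

/-- The axioms of `ZFCU = ZU + Replacement + AC + Collection`.  In the schemes, for a formula
`φ(x, y, parameters)`, the variable `0` is `x` and the variable `1` is `y`. -/
structure ZFCU (M : Type u) [UStr M] : Prop where
  zu : ZU M
  /-- the replacement scheme -/
  replacement : ∀ (φ : LU.Formula ℕ) (v : ℕ → M) (w : M), IsSet w →
    (∀ x, mem x w → ∃! y, φ.Realize (cons x (cons y v))) →
    ∃ z, IsSet z ∧ ∀ y, mem y z ↔ ∃ x, mem x w ∧ φ.Realize (cons x (cons y v))
  choice : AxChoice M
  /-- the collection scheme -/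
  collection : ∀ (φ : LU.Formula ℕ) (v : ℕ → M) (w : M), IsSet w →
    (∀ x, mem x w → ∃ y, φ.Realize (cons x (cons y v))) →
    ∃ z, IsSet z ∧ ∀ x, mem x w → ∃ y, mem y z ∧ φ.Realize (cons x (cons y v))

section

variable {M : Type u} {C : Type v} [UStr M] [CMem M C]

/-- The ordered pair `(x, y)` is an element of the class `R`. -/
def CRel (R : C) (x y : M) : Prop := ∃ p, IsOPair p x y ∧ cmem p R

end

/-- The axioms of the two-sorted class theory `GBcU_R + Collection + Global Choice`: the first
sort (objects) is `M`, the second sort (classes) is `C`. -/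
structure GBcUCollGC (M : Type u) (C : Type v) [UStr M] [CMem M C] : Prop where
  zu : ZU M
  /-- class extensionality -/
  class_extensionality : ∀ X Y : C, (∀ x : M, cmem x X ↔ cmem x Y) → X = Y
  /-- first-order comprehension: for each formula `φ(x, parameters)` with only first-order
  quantifiers, with object and class parameters (the variable `0` is `x`) -/
  comprehension : ∀ (φ : (LC C).Formula ℕ) (v : ℕ → M),
    ∃ X : C, ∀ x : M, cmem x X ↔ φ.Realize (cons x v)
  /-- replacement: the image of a set `w` under a class function defined on `w` is a set -/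
  replacement : ∀ (F : C) (w : M), IsSet w → (∀ x, mem x w → ∃! y : M, CRel F x y) →
    ∃ z, IsSet z ∧ ∀ y, mem y z ↔ ∃ x, mem x w ∧ CRel F x y
  /-- the axiom of choice, for sets -/
  choice : AxChoice M
  /-- collection -/
  collection : ∀ (R : C) (w : M), IsSet w → (∀ x, mem x w → ∃ y : M, CRel R x y) →
    ∃ z, IsSet z ∧ ∀ x, mem x w → ∃ y, mem y z ∧ CRel R x y
  /-- global choice: some class function `F` satisfies `F(x) ∈ x` for every non-empty set `x` -/
  global_choice : ∃ F : C, (∀ x y z : M, CRel F x y → CRel F x z → y = z) ∧
    ∀ x : M, IsSet x → (∃ a, mem a x) → ∃ y, mem y x ∧ CRel F x y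

/-- `GBcU_R + Collection + Global Choice` is conservative over `ZFCU`: every sentence of the
first-order language of urelement set theory which holds in all models of the class theory
(equivalently, by the completeness theorem, is provable in it) holds in all models of `ZFCU`
(is provable in `ZFCU`). -/
def Conservative : Prop :=
  ∀ σ : LU.Sentence,
    (∀ (M : Type u) (C : Type v) [UStr M] [CMem M C], GBcUCollGC M C → M ⊨ σ) →
    ∀ (N : Type w) [UStr N], ZFCU N → N ⊨ σ

end Pool.Agent.Urel
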