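import Pool.Agent.Urel.Defs

/-!
# The universe of sets with urelements from `A`, and its part of countable kernel
-/

namespace Pool.Agent.Urel

open FirstOrder FirstOrder.Language

/-- pre-sets with urelements -/
inductive PU (A : Type) : Type 1
  | ur : A → PU A
  | mk : (α : Type) → (α → PU A) → PU A

namespace PU

variable {A : Type}

/-- extensional equivalence -/
def Eqv : PU A → PU A → Prop
  | ur a, ur b => a = b
  | mk _ f, mk _ g => (∀ i, ∃ j, Eqv (f i) (g j)) ∧ (∀ j, ∃ i, Eqv (f i) (g j))
  | ur _, mk _ _ => False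
  | mk _ _, ur _ => False

theorem Eqv.refl (x : PU A) : Eqv x x := by
  induction x with
  | ur a => simp [Eqv]
  | mk α f ih => exact ⟨fun i => ⟨i, ih i⟩, fun i => ⟨i, ih i⟩⟩

theorem Eqv.symm {x y : PU A} (h : Eqv x y) : Eqv y x := by
  induction x generalizing y with
  | ur a =>
    cases y with
    | ur b => simp only [Eqv] at h ⊢; exact h.symm
    | mk β g => simp [Eqv] at h
  | mk α f ih =>
    cases y with
    | ur b => simp [Eqv] at h
    | mk β g =>
      simp only [Eqv] at h ⊢
      refine ⟨fun j => ?_, fun i => ?_⟩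
      · obtain ⟨i, hi⟩ := h.2 j
        exact ⟨i, ih i hi⟩
      · obtain ⟨j, hj⟩ := h.1 i
        exact ⟨j, ih i hj⟩

theorem Eqv.trans {x y z : PU A} (h : Eqv x y) (h' : Eqv y z) : Eqv x z := by
  induction x generalizing y z with
  | ur a =>
    cases y with
    | ur b =>
      cases z with
      | ur c => simp only [Eqv] at h h' ⊢; exact h.trans h'
      | mk γ k => simp [Eqv] at h'
    | mk β g => simp [Eqv] at h
  | mk α f ih =>
    cases y with
    | ur b => simp [Eqv] at h
    | mk β g =>
      cases z with
      | ur c => simp [Eqv] at h'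
      | mk γ k =>
        simp only [Eqv] at h h' ⊢
        refine ⟨fun i => ?_, fun l => ?_⟩
        · obtain ⟨j, hj⟩ := h.1 i
          obtain ⟨l, hl⟩ := h'.1 j
          exact ⟨l, ih i hj hl⟩
        · obtain ⟨j, hj⟩ := h'.2 l
          obtain ⟨i, hi⟩ := h.2 j
          exact ⟨i, ih i hi hj⟩

instance setoid (A : Type) : Setoid (PU A) := ⟨Eqv, Eqv.refl, Eqv.symm, Eqv.trans⟩

/-- the kernel: the set of urelements that occur in `x` -/
def supp : PU A → Set A
  | ur a => {a}
  | mk _ f => ⋃ i, supp (f i)

theorem supp_congr {x y : PU A} (h : Eqv x y) : supp x = supp y := by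
  induction x generalizing y with
  | ur a =>
    cases y with
    | ur b => simp only [Eqv] at h; rw [h]
    | mk β g => simp [Eqv] at h
  | mk α f ih =>
    cases y with
    | ur b => simp [Eqv] at h
    | mk β g =>
      simp only [Eqv] at h
      simp only [supp]
      apply Set.Subset.antisymm
      · refine Set.iUnion_subset fun i => ?_
        obtain ⟨j, hj⟩ := h.1 i
        rw [ih i hj]
        exact Set.subset_iUnion (fun j => supp (g j)) j
      · refine Set.iUnion_subset fun j => ?_
        obtain ⟨i, hi⟩ := h.2 j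
        rw [← ih i hi]
        exact Set.subset_iUnion (fun i => supp (f i)) i

/-- the action of a permutation of the urelements -/
def act (π : Equiv.Perm A) : PU A → PU A
  | ur a => ur (π a)
  | mk α f => mk α (fun i => act π (f i))

theorem act_congr (π : Equiv.Perm A) {x y : PU A} (h : Eqv x y) : Eqv (act π x) (act π y) := by
  induction x generalizing y with
  | ur a =>
    cases y with
    | ur b => simp only [Eqv, act] at h ⊢; rw [h]
    | mk β g => simp [Eqv] at h
  | mk α f ih =>
    cases y with
    | ur b => simp [Eqv] at h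
    | mk β g =>
      simp only [Eqv, act] at h ⊢
      refine ⟨fun i => ?_, fun j => ?_⟩
      · obtain ⟨j, hj⟩ := h.1 i
        exact ⟨j, ih i hj⟩
      · obtain ⟨i, hi⟩ := h.2 j
        exact ⟨i, ih i hi⟩

theorem act_act (π ρ : Equiv.Perm A) (x : PU A) : act π (act ρ x) = act (π * ρ) x := by
  induction x with
  | ur a => simp [act]
  | mk α f ih => simp [act, ih]

theorem act_one (x : PU A) : act (1 : Equiv.Perm A) x = x := by
  induction x with
  | ur a => simp [act]
  | mk α f ih => simp [act, ih]

theorem supp_act (π : Equiv.Perm A) (x : PU A) : supp (act π x) = π '' supp x := by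
  induction x with
  | ur a => simp [act, supp]
  | mk α f ih => simp [act, supp, ih, Set.image_iUnion]

theorem act_fix (π : Equiv.Perm A) (x : PU A) (h : ∀ a ∈ supp x, π a = a) : act π x = x := by
  induction x with
  | ur a => simp only [act]; rw [h a (by simp [supp])]
  | mk α f ih =>
    simp only [act]
    congr 1
    funext i
    exact ih i (fun a ha => h a (Set.mem_iUnion.2 ⟨i, ha⟩))

end PU

/-- the universe of sets with urelements from `A` -/
def QU (A : Type) : Type 1 := Quotient (PU.setoid A)

namespace QU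

variable {A : Type}

/-- kernel -/
def supp : QU A → Set A := Quotient.lift PU.supp (fun _ _ h => PU.supp_congr h)

/-- action -/
def act (π : Equiv.Perm A) : QU A → QU A :=
  Quotient.map (PU.act π) (fun _ _ h => PU.act_congr π h)

/-- the urelement `a` -/
def ur (a : A) : QU A := Quotient.mk _ (PU.ur a)

/-- the set with the elements `f i` -/
noncomputable def mk (α : Type) (f : α → QU A) : QU A :=
  Quotient.mk _ (PU.mk α (fun i => (f i).out))

theorem cases (x : QU A) : (∃ a, x = ur a) ∨ ∃ (α : Type) (f : α → QU A), x = mk α f := by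
  induction x using Quotient.inductionOn with
  | h x =>
    cases x with
    | ur a => exact Or.inl ⟨a, rfl⟩
    | mk α f =>
      refine Or.inr ⟨α, fun i => Quotient.mk _ (f i), ?_⟩
      apply Quotient.sound
      refine ⟨fun i => ⟨i, ?_⟩, fun i => ⟨i, ?_⟩⟩
      · exact PU.Eqv.symm (Quotient.mk_out (f i))
      · exact PU.Eqv.symm (Quotient.mk_out (f i))

theorem ur_inj {a b : A} (h : ur a = ur b) : a = b := by
  have := Quotient.exact h
  exact this

theorem ur_ne_mk {a : A} {α : Type} {f : α → QU A} : ur a ≠ mk α f := by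
  intro h
  have := Quotient.exact h
  exact this

theorem mk_eq_mk {α β : Type} {f : α → QU A} {g : β → QU A} :
    mk α f = mk β g ↔ (∀ i, ∃ j, f i = g j) ∧ (∀ j, ∃ i, f i = g j) := by
  constructor
  · intro h
    have h' : PU.Eqv _ _ := Quotient.exact h
    simp only [PU.Eqv] at h'
    have key : ∀ i j, PU.Eqv (f i).out (g j).out → f i = g j := by
      intro i j hij
      rw [← Quotient.out_eq (f i), ← Quotient.out_eq (g j)]
      exact Quotient.sound hij
    refine ⟨fun i => ?_, fun j => ?_⟩
    · obtain ⟨j, hj⟩ := h'.1 i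
      exact ⟨j, key i j hj⟩
    · obtain ⟨i, hi⟩ := h'.2 j
      exact ⟨i, key i j hi⟩
  · rintro ⟨h1, h2⟩
    have key : ∀ (x y : QU A), x = y → PU.Eqv (Quotient.out x) (Quotient.out y) := by
      rintro x y rfl
      exact PU.Eqv.refl _
    apply Quotient.sound
    refine ⟨fun i => ?_, fun j => ?_⟩
    · obtain ⟨j, hj⟩ := h1 i
      exact ⟨j, key _ _ hj⟩
    · obtain ⟨i, hi⟩ := h2 j
      exact ⟨i, key _ _ hi⟩

theorem supp_ur (a : A) : supp (ur a) = {a} := rfl

theorem supp_mk {α : Type} (f : α → QU A) : supp (mk α f) = ⋃ i, supp (f i) := by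
  have : ∀ i, supp (f i) = PU.supp (f i).out := by
    intro i
    conv_lhs => rw [← Quotient.out_eq (f i)]
    rfl
  simp only [this]
  rfl

theorem act_ur (π : Equiv.Perm A) (a : A) : act π (ur a) = ur (π a) := rfl

theorem act_mk (π : Equiv.Perm A) {α : Type} (f : α → QU A) :
    act π (mk α f) = mk α (fun i => act π (f i)) := by
  apply Quotient.sound
  have key : ∀ i, PU.Eqv (PU.act π (Quotient.out (f i))) (Quotient.out (act π (f i))) := by
    intro i
    have h1 : (Quotient.mk (PU.setoid A) (PU.act π (Quotient.out (f i))) : QU A) =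
        Quotient.mk (PU.setoid A) (Quotient.out (act π (f i))) := by
      rw [Quotient.out_eq]
      conv_rhs => rw [← Quotient.out_eq (f i)]
      rfl
    exact Quotient.exact h1
  exact ⟨fun i => ⟨i, key i⟩, fun i => ⟨i, key i⟩⟩

theorem act_act (π ρ : Equiv.Perm A) (x : QU A) : act π (act ρ x) = act (π * ρ) x := by
  induction x using Quotient.inductionOn with
  | h x =>
    show Quotient.mk _ _ = Quotient.mk _ _
    rw [PU.act_act]

theorem act_one (x : QU A) : act (1 : Equiv.Perm A) x = x := by
  induction x using Quotient.inductionOn with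
  | h x =>
    show Quotient.mk _ _ = Quotient.mk _ _
    rw [PU.act_one]

theorem supp_act (π : Equiv.Perm A) (x : QU A) : supp (act π x) = π '' supp x := by
  induction x using Quotient.inductionOn with
  | h x => exact PU.supp_act π x

theorem act_fix (π : Equiv.Perm A) (x : QU A) (h : ∀ a ∈ supp x, π a = a) : act π x = x := by
  induction x using Quotient.inductionOn with
  | h x =>
    show Quotient.mk _ _ = Quotient.mk _ _
    rw [PU.act_fix π x h]

/-- membership -/
def Mem (x y : QU A) : Prop := ∃ (α : Type) (f : α → QU A), y = mk α f ∧ ∃ i, x = f i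

theorem mem_mk {x : QU A} {α : Type} {f : α → QU A} : Mem x (mk α f) ↔ ∃ i, x = f i := by
  constructor
  · rintro ⟨β, g, h, j, rfl⟩
    obtain ⟨i, hi⟩ := (mk_eq_mk.1 h).2 j
    exact ⟨i, hi.symm⟩
  · rintro ⟨i, hi⟩
    exact ⟨α, f, rfl, i, hi⟩

theorem not_mem_ur {x : QU A} {a : A} : ¬ Mem x (ur a) := by
  rintro ⟨α, f, h, -⟩
  exact ur_ne_mk h

theorem mem_wf : WellFounded (Mem : QU A → QU A → Prop) := by
  refine ⟨fun x => ?_⟩
  induction x using Quotient.inductionOn with
  | h x =>
    induction x with
    | ur a => exact ⟨_, fun y hy => absurd hy not_mem_ur⟩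
    | mk α f ih =>
      refine ⟨_, fun y hy => ?_⟩
      have : (Quotient.mk _ (PU.mk α f) : QU A) = mk α (fun i => Quotient.mk _ (f i)) := by
        apply Quotient.sound
        refine ⟨fun i => ⟨i, ?_⟩, fun i => ⟨i, ?_⟩⟩
        · exact PU.Eqv.symm (Quotient.mk_out (f i))
        · exact PU.Eqv.symm (Quotient.mk_out (f i))
      rw [this, mem_mk] at hy
      obtain ⟨i, rfl⟩ := hy
      exact ih i

theorem supp_subset_of_mem {x y : QU A} (h : Mem x y) : supp x ⊆ supp y := by
  obtain ⟨α, f, rfl, i, rfl⟩ := h
  rw [supp_mk]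
  exact Set.subset_iUnion (fun i => supp (f i)) i

theorem act_inj (π : Equiv.Perm A) {x y : QU A} (h : act π x = act π y) : x = y := by
  have := congrArg (act π⁻¹) h
  rwa [act_act, act_act, inv_mul_cancel, act_one, act_one] at this

theorem mem_act (π : Equiv.Perm A) {x y : QU A} : Mem (act π x) (act π y) ↔ Mem x y := by
  rcases cases y with ⟨a, rfl⟩ | ⟨α, f, rfl⟩
  · rw [act_ur]
    exact ⟨fun h => absurd h not_mem_ur, fun h => absurd h not_mem_ur⟩
  · rw [act_mk, mem_mk, mem_mk]
    constructor
    · rintro ⟨i, hi⟩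
      exact ⟨i, act_inj π hi⟩
    · rintro ⟨i, rfl⟩
      exact ⟨i, rfl⟩

end QU

end Pool.Agent.Urel
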