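import Pool.Agent.Urel.TBasic

/-!
# The class theory refutes few urelements
-/

namespace Pool.Agent.Urel

open FirstOrder FirstOrder.Language

universe u v w

section

variable {M : Type u} [UStr M]

/-- `D` is a set of urelements -/
def URS (D : M) : Prop := IsSet D ∧ ∀ d, mem d D → ure d

/-- the set `i` of ordered pairs is an injection of `D` into `X` (perhaps with junk that is
not an ordered pair) -/
def Inj (i D X : M) : Prop :=
  (∀ d y, SRel i d y → mem d D ∧ mem y X) ∧ (∀ d, mem d D → ∃ y, SRel i d y) ∧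
  (∀ d y y', SRel i d y → SRel i d y' → y = y') ∧
  (∀ d d' y, SRel i d y → SRel i d' y → d = d')

/-- `k` extends `i` -/
def Ext (i k : M) : Prop := ∀ d y, SRel i d y → SRel k d y

/-- The hypothesis few urelements. -/
def Few (M : Type u) [UStr M] : Prop :=
  ∃ X Y : M, (∀ x, mem x X → mem x Y) ∧ (∀ D, URS D → ∃ i, Inj i D X) ∧
    (∀ D E i, URS D → URS E → (∀ d, mem d D → mem d E) → Inj i D X → ∃ k, Inj k E Y ∧ Ext i k)

end

section

variable {M : Type u} {C : Type v} [UStr M] [CMem M C]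
variable {Γ : Type u} [Ctx M Γ]

theorem FO.urs {f : Γ → M} (hf : FOF (LC C) M f) : FO (LC C) M (fun e => URS (f e)) := by
  unfold URS
  refine FO.and (FO.isSet hf) ?_
  exact FO.all (FO.imp (FO.mem FOF.var hf.weak) (FO.ure FOF.var))

theorem FO.inj {f g h : Γ → M} (hf : FOF (LC C) M f) (hg : FOF (LC C) M g)
    (hh : FOF (LC C) M h) : FO (LC C) M (fun e => Inj (f e) (g e) (h e)) := by
  unfold Inj
  refine FO.and ?_ (FO.and ?_ (FO.and ?_ ?_))
  · refine FO.all (FO.all ?_)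
    exact FO.imp (FO.sRel hf.weak.weak FOF.var.weak FOF.var)
      (FO.and (FO.mem FOF.var.weak hg.weak.weak) (FO.mem FOF.var hh.weak.weak))
  · refine FO.all ?_
    refine FO.imp (FO.mem FOF.var hg.weak) ?_
    exact FO.ex (FO.sRel hf.weak.weak FOF.var.weak FOF.var)
  · refine FO.all (FO.all (FO.all ?_))
    exact FO.imp (FO.sRel hf.weak.weak.weak FOF.var.weak.weak FOF.var.weak)
      (FO.imp (FO.sRel hf.weak.weak.weak FOF.var.weak.weak FOF.var)
        (FO.eq FOF.var.weak FOF.var))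
  · refine FO.all (FO.all (FO.all ?_))
    exact FO.imp (FO.sRel hf.weak.weak.weak FOF.var.weak.weak FOF.var)
      (FO.imp (FO.sRel hf.weak.weak.weak FOF.var.weak FOF.var)
        (FO.eq FOF.var.weak.weak FOF.var.weak))

theorem FO.ext {f g : Γ → M} (hf : FOF (LC C) M f) (hg : FOF (LC C) M g) :
    FO (LC C) M (fun e => Ext (f e) (g e)) := by
  unfold Ext
  refine FO.all (FO.all ?_)
  exact FO.imp (FO.sRel hf.weak.weak FOF.var.weak FOF.var)
    (FO.sRel hg.weak.weak FOF.var.weak FOF.var)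

/-- The structure induced by the choice function `F` and the injection `k`: `U` is the image of
a non-empty set `E` contained in the domain of `k`, and `y` is the image of `F(E)`. -/
def St (F : C) (k U y : M) : Prop :=
  IsSet U ∧ ∃ E, IsSet E ∧ (∃ e, mem e E) ∧ (∀ e, mem e E → ∃ z, SRel k e z) ∧
    (∀ z, mem z U ↔ ∃ e, mem e E ∧ SRel k e z) ∧ ∃ d, mem d E ∧ CRel F E d ∧ SRel k d y

theorem FO.st (F : C) {f g h : Γ → M} (hf : FOF (LC C) M f) (hg : FOF (LC C) M g)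
    (hh : FOF (LC C) M h) : FO (LC C) M (fun e => St F (f e) (g e) (h e)) := by
  unfold St
  refine FO.and (FO.isSet hg) ?_
  refine FO.ex ?_
  refine FO.and (FO.isSet FOF.var) (FO.and ?_ (FO.and ?_ (FO.and ?_ ?_)))
  · exact FO.ex (FO.mem FOF.var FOF.var.weak)
  · refine FO.all (FO.imp (FO.mem FOF.var FOF.var.weak) ?_)
    exact FO.ex (FO.sRel hf.weak.weak.weak FOF.var.weak FOF.var)
  · refine FO.all (FO.iff (FO.mem FOF.var hg.weak.weak) ?_)
    exact FO.ex (FO.and (FO.mem FOF.var FOF.var.weak.weak)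
      (FO.sRel hf.weak.weak.weak FOF.var FOF.var.weak))
  · refine FO.ex ?_
    exact FO.and (FO.mem FOF.var FOF.var.weak) (FO.and (FO.cRel FOF.var.weak FOF.var)
      (FO.sRel hf.weak.weak FOF.var hh.weak.weak))

/-- `s` is the set of pairs `(U, y)` with `St F k U y` -/
def IsS (F : C) (k s : M) : Prop :=
  IsSet s ∧ ∀ p, mem p s ↔ ∃ U y, IsOPair p U y ∧ St F k U y

theorem FO.isS (F : C) {f g : Γ → M} (hf : FOF (LC C) M f) (hg : FOF (LC C) M g) :
    FO (LC C) M (fun e => IsS F (f e) (g e)) := by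
  unfold IsS
  refine FO.and (FO.isSet hg) ?_
  refine FO.all (FO.iff (FO.mem FOF.var hg.weak) ?_)
  refine FO.ex (FO.ex ?_)
  exact FO.and (FO.isOPair FOF.var.weak.weak FOF.var.weak FOF.var)
    (FO.st F hf.weak.weak.weak FOF.var.weak FOF.var)

/-- `t` is the set of all types of extensions of `i` with values in `Y` -/
def IsT (F : C) (Y i t : M) : Prop :=
  IsSet t ∧ ∀ s, mem s t ↔ ∃ k D, URS D ∧ Inj k D Y ∧ Ext i k ∧ IsS F k s

theorem FO.isT (F : C) (Y : M) {f g : Γ → M} (hf : FOF (LC C) M f) (hg : FOF (LC C) M g) :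
    FO (LC C) M (fun e => IsT F Y (f e) (g e)) := by
  unfold IsT
  refine FO.and (FO.isSet hg) ?_
  refine FO.all (FO.iff (FO.mem FOF.var hg.weak) ?_)
  refine FO.ex (FO.ex ?_)
  exact FO.and (FO.urs FOF.var) (FO.and (FO.inj FOF.var.weak FOF.var (FOF.param Y))
    (FO.and (FO.ext hf.weak.weak.weak FOF.var.weak) (FO.isS F FOF.var.weak FOF.var.weak.weak)))

end

section

variable {M : Type u} {C : Type v} [UStr M] [CMem M C]

theorem IsS.unique (T : ZU M) {F : C} {k s s' : M} (h : IsS F k s) (h' : IsS F k s') : s = s' :=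
  T.extensionality _ _ h.1 h'.1 (fun p => by rw [h.2, h'.2])

theorem IsT.unique (T : ZU M) {F : C} {Y i t t' : M} (h : IsT F Y i t) (h' : IsT F Y i t') :
    t = t' :=
  T.extensionality _ _ h.1 h'.1 (fun p => by rw [h.2, h'.2])

/-- the set `W = P(P(P(Y) ∪ Y))` bounds the pairs of the structures -/
theorem bound_pairs (T : GBcUCollGC M C) (F : C) (Y : M) :
    ∃ W : M, IsSet W ∧ ∀ k D p U y, Inj k D Y → IsOPair p U y → St F k U y → mem p W := by
  obtain ⟨PY, hPY, hPY'⟩ := T.zu.powerset' Y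
  obtain ⟨Z, hZ⟩ := T.zu.pairing PY Y
  obtain ⟨V, hV, hV'⟩ := T.zu.union' Z
  obtain ⟨V1, hV1, hV1'⟩ := T.zu.powerset' V
  obtain ⟨V2, hV2, hV2'⟩ := T.zu.powerset' V1
  refine ⟨V2, hV2, fun k D p U y hk hp hst => ?_⟩
  rw [hV2']
  refine ⟨hp.1, fun a ha => ?_⟩
  rw [hV1']
  have hU : mem U V := by
    rw [hV']
    refine ⟨PY, (hZ.2 _).2 (Or.inl rfl), (hPY' _).2 ⟨hst.1, fun z hz => ?_⟩⟩
    obtain ⟨-, E, -, -, -, h4, -⟩ := hst
    obtain ⟨e, -, he⟩ := (h4 z).1 hz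
    exact (hk.1 _ _ he).2
  have hy : mem y V := by
    rw [hV']
    refine ⟨Y, (hZ.2 _).2 (Or.inr rfl), ?_⟩
    obtain ⟨-, E, -, -, -, -, d, -, -, hd⟩ := hst
    exact (hk.1 _ _ hd).2
  rcases (hp.2 a).1 ha with h | h
  · refine ⟨h.1, fun b hb => ?_⟩
    rcases (h.2 b).1 hb with rfl | rfl <;> exact hU
  · refine ⟨h.1, fun b hb => ?_⟩
    rcases (h.2 b).1 hb with rfl | rfl
    · exact hU
    · exact hy

/-- functional, injective transfer between two injections with the same structure -/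
theorem transfer (T : GBcUCollGC M C) {F : C}
    (hF : ∀ x y z : M, CRel F x y → CRel F x z → y = z)
    (hF' : ∀ x : M, IsSet x → (∃ a, mem a x) → ∃ y, mem y x ∧ CRel F x y)
    {Y k l D D' s : M} (hk : Inj k D Y) (hl : Inj l D' Y) (hks : IsS F k s) (hls : IsS F l s)
    {E E' d d' : M} (hE : IsSet E) (hEne : ∃ e, mem e E) (hED : ∀ e, mem e E → mem e D)
    (hE' : IsSet E') (hEE' : ∀ z, mem z E' ↔ ∃ x, mem x E ∧ ∃ y, SRel k x y ∧ SRel l z y)
    (hd : CRel F E d) (hd' : CRel F E' d') : ∃ y, SRel k d y ∧ SRel l d' y := by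
  obtain ⟨U, hU, hU'⟩ := T.sep (P := fun y => ∃ x, mem x E ∧ SRel k x y) (by
    refine FO.ex ?_
    exact FO.and (FO.mem FOF.var (FOF.param E)) (FO.sRel (FOF.param k) FOF.var FOF.var.weak)) Y
  have hU'' : ∀ y, mem y U ↔ ∃ x, mem x E ∧ SRel k x y := by
    intro y
    rw [hU']
    constructor
    · exact fun h => h.2
    · rintro ⟨x, hx, hxy⟩
      exact ⟨(hk.1 _ _ hxy).2, x, hx, hxy⟩
  obtain ⟨d₁, hd₁E, hd₁⟩ := hF' E hE hEne
  obtain rfl : d₁ = d := hF _ _ _ hd₁ hd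
  obtain ⟨y₀, hy₀⟩ := hk.2.1 d₁ (hED _ hd₁E)
  have hst : St F k U y₀ := ⟨hU, E, hE, hEne, fun e he => hk.2.1 e (hED e he), hU'', d₁, hd₁E,
    hd₁, hy₀⟩
  obtain ⟨p, hp⟩ := T.zu.opair_exists U y₀
  have hps : mem p s := (hks.2 p).2 ⟨U, y₀, hp, hst⟩
  obtain ⟨U₂, y₂, hp₂, hst₂⟩ := (hls.2 p).1 hps
  obtain ⟨rfl, rfl⟩ := T.zu.opair_inj hp hp₂
  obtain ⟨-, E₁, hE₁, hE₁ne, hE₁d, hUE₁, d₂, hd₂, hFd₂, hld₂⟩ := hst₂
  have : E₁ = E' := by
    refine T.zu.extensionality _ _ hE₁ hE' (fun z => ?_)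
    rw [hEE']
    constructor
    · intro hz
      obtain ⟨y, hy⟩ := hE₁d z hz
      have hyU : mem y U := (hUE₁ y).2 ⟨z, hz, hy⟩
      obtain ⟨x, hx, hxy⟩ := (hU'' y).1 hyU
      exact ⟨x, hx, y, hxy, hy⟩
    · rintro ⟨x, hx, y, hxy, hzy⟩
      have hyU : mem y U := (hU'' y).2 ⟨x, hx, hxy⟩
      obtain ⟨e, he, hey⟩ := (hUE₁ y).1 hyU
      obtain rfl := hl.2.2.2 _ _ _ hey hzy
      exact he
  subst this
  obtain rfl := hF _ _ _ hFd₂ hd'
  exact ⟨_, hy₀, hld₂⟩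

/-- the types determine the range -/
theorem range_eq (T : GBcUCollGC M C) {F : C}
    (hF' : ∀ x : M, IsSet x → (∃ a, mem a x) → ∃ y, mem y x ∧ CRel F x y)
    {Y k D l s : M} (hk : Inj k D Y) (hks : IsS F k s) (hls : IsS F l s) {x y : M}
    (hxy : SRel k x y) : ∃ z, SRel l z y := by
  obtain ⟨E, hE⟩ := T.zu.pairing x x
  obtain ⟨U, hU⟩ := T.zu.pairing y y
  obtain ⟨p, hp⟩ := T.zu.opair_exists U y
  have hst : St F k U y := by
    refine ⟨hU.1, E, hE.1, ⟨x, (hE.2 x).2 (Or.inl rfl)⟩, ?_, ?_, ?_⟩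
    · intro e he
      rcases (hE.2 e).1 he with rfl | rfl <;> exact ⟨y, hxy⟩
    · intro z
      rw [hU.2]
      constructor
      · rintro (rfl | rfl) <;> exact ⟨x, (hE.2 x).2 (Or.inl rfl), hxy⟩
      · rintro ⟨e, he, hez⟩
        rcases (hE.2 e).1 he with rfl | rfl <;> exact Or.inl (hk.2.2.1 _ _ _ hez hxy)
    · obtain ⟨d, hd, hdF⟩ := hF' E hE.1 ⟨x, (hE.2 x).2 (Or.inl rfl)⟩
      refine ⟨d, hd, hdF, ?_⟩
      rcases (hE.2 d).1 hd with rfl | rfl <;> exact hxy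
  have hps : mem p s := (hks.2 p).2 ⟨U, y, hp, hst⟩
  obtain ⟨U₂, y₂, hp₂, hst₂⟩ := (hls.2 p).1 hps
  obtain ⟨rfl, rfl⟩ := T.zu.opair_inj hp hp₂
  obtain ⟨-, E₁, -, -, -, -, d₂, -, -, hld₂⟩ := hst₂
  exact ⟨d₂, hld₂⟩

/-- the final rigidity argument -/
theorem rigid (T : GBcUCollGC M C) {F : C}
    (hF' : ∀ x : M, IsSet x → (∃ a, mem a x) → ∃ y, mem y x ∧ CRel F x y)
    {A A₁ : M} {V : M → M → Prop}
    (hV : FO (LC C) M (fun p : (PUnit.{u+1} × M) × M => V p.1.2 p.2))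
    (hA₁set : IsSet A₁) (hA₁ : ∀ x, mem x A₁ → mem x A)
    (hVA : ∀ x z, V x z → mem x A ∧ mem z A)
    (hVtot : ∀ x, mem x A → ∃ z, V x z)
    (hVfun : ∀ x z z', V x z → V x z' → z = z')
    (hVinj : ∀ x x' z, V x z → V x' z → x = x')
    (hVF : ∀ E E' d d', IsSet E → (∃ e, mem e E) → (∀ e, mem e E → mem e A) → IsSet E' →
      (∀ z, mem z E' ↔ ∃ x, mem x E ∧ V x z) → CRel F E d → CRel F E' d' → V d d')
    (hρ : ∀ x, mem x A₁ → ∃ x', mem x' A₁ ∧ V x' x) :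
    ∀ x, mem x A₁ → V x x := by
  classical
  have hV1 : ∀ {Γ : Type u} [Ctx M Γ] {f g : Γ → M}, FOF (LC C) M f → FOF (LC C) M g →
      FO (LC C) M (fun e => V (f e) (g e)) := by
    intro Γ _ f g hf hg
    refine FO.subst (R := fun e x => V x (g e)) ?_ hf
    refine FO.subst (Γ := Γ × M) (R := fun e y => V e.2 y) ?_ hg.weak
    exact FO.comap hV
      (fun p : ((Γ × M) × M) => ((PUnit.unit, p.1.2), p.2))
      (vsnoc (vsnoc (fun i => i.elim0) (vcast M (Γ × M) (vlast M Γ))) (vlast M (Γ × M)))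
      (fun d => var_cases (by rw [vsnoc_vlast, enc_vlast, enc_vlast])
        (var_cases (by rw [vsnoc_vcast, vsnoc_vlast, enc_vcast, enc_vcast, enc_vlast, enc_vlast])
          (fun i => i.elim0)))
  -- the largest set `O` with `O ⊆ V[O]`
  obtain ⟨O, hO, hO'⟩ := T.sep (P := fun y => ∃ Z, (∀ z, mem z Z → mem z A) ∧ mem y Z ∧
      ∀ z, mem z Z → ∃ z', mem z' Z ∧ V z' z) (by
    refine FO.ex (FO.and ?_ (FO.and ?_ ?_))
    · exact FO.all (FO.imp (FO.mem FOF.var FOF.var.weak) (FO.mem FOF.var (FOF.param A)))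
    · exact FO.mem FOF.var.weak FOF.var
    · refine FO.all (FO.imp (FO.mem FOF.var FOF.var.weak) ?_)
      exact FO.ex (FO.and (FO.mem FOF.var FOF.var.weak.weak) (hV1 FOF.var FOF.var.weak))) A
  have hOA : ∀ x, mem x O → mem x A := fun x hx => ((hO' x).1 hx).1
  have hA₁O : ∀ x, mem x A₁ → mem x O := fun x hx =>
    (hO' x).2 ⟨hA₁ x hx, A₁, hA₁, hx, hρ⟩
  have hback : ∀ x, mem x O → ∃ x', mem x' O ∧ V x' x := by
    intro x hx
    obtain ⟨hxA, Z, hZA, hxZ, hZ⟩ := (hO' x).1 hx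
    obtain ⟨x', hx', hV'⟩ := hZ x hxZ
    exact ⟨x', (hO' x').2 ⟨hZA _ hx', Z, hZA, hx', hZ⟩, hV'⟩
  have hforth : ∀ x z, mem x O → V x z → mem z O := by
    intro x z hx hxz
    obtain ⟨hxA, Z, hZA, hxZ, hZ⟩ := (hO' x).1 hx
    have hzA := (hVA _ _ hxz).2
    obtain ⟨Z', hZ', hZ''⟩ := T.sep (P := fun y => mem y Z ∨ y = z) (by
      exact FO.or (FO.mem FOF.var (FOF.param Z)) (FO.eq FOF.var (FOF.param z))) A
    refine (hO' z).2 ⟨hzA, Z', fun y hy => ((hZ'' y).1 hy).1, (hZ'' z).2 ⟨hzA, Or.inr rfl⟩, ?_⟩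
    intro y hy
    rcases ((hZ'' y).1 hy).2 with h | rfl
    · obtain ⟨y', hy', hV'⟩ := hZ y h
      exact ⟨y', (hZ'' y').2 ⟨hZA _ hy', Or.inl hy'⟩, hV'⟩
    · exact ⟨x, (hZ'' x).2 ⟨hxA, Or.inl hxZ⟩, hxz⟩
  -- the set of moved points
  obtain ⟨E, hE, hE'⟩ := T.sep (P := fun y => ¬ V y y) (FO.not (hV1 FOF.var FOF.var)) O
  have hEV : ∀ z, mem z E ↔ ∃ x, mem x E ∧ V x z := by
    intro z
    constructor
    · intro hz
      obtain ⟨hzO, hzV⟩ := (hE' z).1 hz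
      obtain ⟨x, hxO, hxz⟩ := hback z hzO
      refine ⟨x, (hE' x).2 ⟨hxO, fun hxx => hzV ?_⟩, hxz⟩
      obtain rfl := hVfun _ _ _ hxx hxz
      exact hxx
    · rintro ⟨x, hx, hxz⟩
      obtain ⟨hxO, hxV⟩ := (hE' x).1 hx
      refine (hE' z).2 ⟨hforth x z hxO hxz, fun hzz => hxV ?_⟩
      obtain rfl := hVinj _ _ _ hxz hzz
      exact hzz
  have hEempty : ∀ x, ¬ mem x E := by
    intro x hx
    obtain ⟨d, hdE, hdF⟩ := hF' E hE ⟨x, hx⟩
    have := hVF E E d d hE ⟨x, hx⟩ (fun e he => hOA e ((hE' e).1 he).1) hE hEV hdF hdF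
    exact ((hE' d).1 hdE).2 this
  intro x hx
  by_contra hxx
  exact hEempty x ((hE' x).2 ⟨hA₁O x hx, hxx⟩)

end

end Pool.Agent.Urel
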