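import Pool.Agent.Urel.Model
import Pool.Agent.Urel.TMain

/-!
# The model of ZFCU of all sets with countable kernel
-/

namespace Pool.Agent.Urel

open FirstOrder FirstOrder.Language

/-- sets with urelements from `A` with countable kernel -/
def NU (A : Type) : Type 1 := {x : QU A // (QU.supp x).Countable}

namespace NU

variable {A : Type}

instance : UStr (NU A) where
  ure x := ∃ a, x.1 = QU.ur a
  mem x y := QU.Mem x.1 y.1

/-- constructor -/
def of (x : QU A) (h : (QU.supp x).Countable) : NU A := ⟨x, h⟩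

/-- kernel -/
def supp (x : NU A) : Set A := QU.supp x.1

theorem supp_countable (x : NU A) : (supp x).Countable := x.2

theorem mem_def {x y : NU A} : mem x y ↔ QU.Mem x.1 y.1 := Iff.rfl

theorem ure_def {x : NU A} : ure x ↔ ∃ a, x.1 = QU.ur a := Iff.rfl

/-- the urelement `a` -/
def ur (a : A) : NU A := ⟨QU.ur a, by rw [QU.supp_ur]; exact Set.countable_singleton a⟩

theorem ure_ur (a : A) : ure (ur a) := ⟨a, rfl⟩

theorem ure_iff {x : NU A} : ure x ↔ ∃ a, x = ur a := by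
  constructor
  · rintro ⟨a, ha⟩
    exact ⟨a, Subtype.ext ha⟩
  · rintro ⟨a, rfl⟩
    exact ure_ur a

theorem ur_inj {a b : A} (h : ur a = ur b) : a = b := QU.ur_inj (congrArg Subtype.val h)

theorem supp_ur (a : A) : supp (ur a) = {a} := rfl

theorem supp_mem {x y : NU A} (h : mem x y) : supp x ⊆ supp y := QU.supp_subset_of_mem h

theorem ofFam {ι : Type} (f : ι → NU A) (h : (⋃ i, supp (f i)).Countable) :
    ∃ y : NU A, IsSet y ∧ (∀ z, mem z y ↔ ∃ i, z = f i) ∧ supp y = ⋃ i, supp (f i) := by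
  refine ⟨⟨QU.mk ι (fun i => (f i).1), by rw [QU.supp_mk]; exact h⟩, ?_, ?_, ?_⟩
  · rintro ⟨a, ha⟩
    exact QU.ur_ne_mk ha.symm
  · intro z
    rw [mem_def, QU.mem_mk]
    constructor
    · rintro ⟨i, hi⟩
      exact ⟨i, Subtype.ext hi⟩
    · rintro ⟨i, rfl⟩
      exact ⟨i, rfl⟩
  · exact QU.supp_mk _

theorem fam (y : NU A) : ∃ (ι : Type) (f : ι → NU A), ∀ z, mem z y ↔ ∃ i, z = f i := by
  rcases QU.cases y.1 with ⟨a, ha⟩ | ⟨α, f, hf⟩
  · refine ⟨Empty, Empty.elim, fun z => ?_⟩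
    rw [mem_def, ha]
    exact ⟨fun h => absurd h QU.not_mem_ur, fun ⟨i, _⟩ => i.elim⟩
  · have hc : ∀ i, (QU.supp (f i)).Countable := by
      intro i
      have := y.2
      rw [hf, QU.supp_mk] at this
      exact this.mono (Set.subset_iUnion (fun i => QU.supp (f i)) i)
    refine ⟨α, fun i => ⟨f i, hc i⟩, fun z => ?_⟩
    rw [mem_def, hf, QU.mem_mk]
    constructor
    · rintro ⟨i, hi⟩
      exact ⟨i, Subtype.ext hi⟩
    · rintro ⟨i, rfl⟩
      exact ⟨i, rfl⟩

theorem ext {x y : NU A} (hx : IsSet x) (hy : IsSet y) (h : ∀ z, mem z x ↔ mem z y) : x = y := by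
  apply Subtype.ext
  rcases QU.cases x.1 with ⟨a, ha⟩ | ⟨α, f, hf⟩
  · exact absurd ⟨a, ha⟩ hx
  rcases QU.cases y.1 with ⟨a, ha⟩ | ⟨β, g, hg⟩
  · exact absurd ⟨a, ha⟩ hy
  rw [hf, hg, QU.mk_eq_mk]
  have hcx : ∀ i, (QU.supp (f i)).Countable := by
    intro i
    have := x.2
    rw [hf, QU.supp_mk] at this
    exact this.mono (Set.subset_iUnion (fun i => QU.supp (f i)) i)
  have hcy : ∀ i, (QU.supp (g i)).Countable := by
    intro i
    have := y.2
    rw [hg, QU.supp_mk] at this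
    exact this.mono (Set.subset_iUnion (fun i => QU.supp (g i)) i)
  constructor
  · intro i
    have h1 : mem (of (f i) (hcx i)) x := by
      rw [mem_def, hf, QU.mem_mk]
      exact ⟨i, rfl⟩
    have h2 := (h _).1 h1
    rw [mem_def, hg, QU.mem_mk] at h2
    exact h2
  · intro j
    have h1 : mem (of (g j) (hcy j)) y := by
      rw [mem_def, hg, QU.mem_mk]
      exact ⟨j, rfl⟩
    have h2 := (h _).2 h1
    rw [mem_def, hf, QU.mem_mk] at h2
    obtain ⟨i, hi⟩ := h2
    exact ⟨i, hi.symm⟩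

theorem mem_wf : WellFounded (mem : NU A → NU A → Prop) :=
  InvImage.wf (fun x : NU A => x.1) QU.mem_wf

/-- arbitrary subsets exist -/
theorem sep (P : NU A → Prop) (a : NU A) : ∃ b : NU A, IsSet b ∧ ∀ x, mem x b ↔ mem x a ∧ P x := by
  obtain ⟨ι, f, hf⟩ := fam a
  obtain ⟨b, hb, hb', -⟩ := ofFam (fun i : {i : ι // P (f i)} => f i.1) (by
    refine a.2.mono (Set.iUnion_subset fun i => ?_)
    exact supp_mem ((hf _).2 ⟨i.1, rfl⟩))
  refine ⟨b, hb, fun x => ?_⟩
  rw [hb', hf]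
  constructor
  · rintro ⟨⟨i, hi⟩, rfl⟩
    exact ⟨⟨i, rfl⟩, hi⟩
  · rintro ⟨⟨i, rfl⟩, hi⟩
    exact ⟨⟨i, hi⟩, rfl⟩

/-- images of small families of elements of the kernel-bounded universe -/
theorem ofFam' {ι : Type} (f : ι → NU A) (B : Set A) (hB : B.Countable) (h : ∀ i, supp (f i) ⊆ B) :
    ∃ y : NU A, IsSet y ∧ (∀ z, mem z y ↔ ∃ i, z = f i) := by
  obtain ⟨y, h1, h2, -⟩ := ofFam f (hB.mono (Set.iUnion_subset h))
  exact ⟨y, h1, h2⟩

theorem pairing (x y : NU A) : ∃ z, IsUPair z x y ∧ supp z = supp x ∪ supp y := by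
  obtain ⟨z, h1, h2, h3⟩ := ofFam (fun b : Bool => if b then x else y) (by
    refine Set.countable_iUnion fun b => ?_
    cases b
    · exact y.2
    · exact x.2)
  refine ⟨z, ⟨h1, fun w => ?_⟩, ?_⟩
  · rw [h2]
    constructor
    · rintro ⟨b, rfl⟩
      cases b
      · right; simp
      · left; simp
    · rintro (rfl | rfl)
      · exact ⟨true, by simp⟩
      · exact ⟨false, by simp⟩
  · rw [h3]
    ext a
    simp only [Set.mem_iUnion, Bool.exists_bool, Set.mem_union]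
    simp [or_comm]

theorem zu [Nonempty A] : ZU (NU A) where
  urelements := by
    rintro x y ⟨a, ha⟩ h
    rw [mem_def, ha] at h
    exact QU.not_mem_ur h
  extensionality := fun x y hx hy h => ext hx hy h
  foundation := by
    rintro x ⟨y, hy⟩
    obtain ⟨z, hz, hz'⟩ := mem_wf.has_min {z | mem z x} ⟨y, hy⟩
    exact ⟨z, hz, fun w hw => hz' w hw⟩
  pairing := fun x y => by
    obtain ⟨z, hz, -⟩ := pairing x y
    exact ⟨z, hz⟩
  union := by
    intro x _
    obtain ⟨ι, f, hf⟩ := fam x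
    choose κ g hg using fun i => fam (f i)
    obtain ⟨y, h1, h2⟩ := ofFam' (fun p : (Σ i, κ i) => g p.1 p.2) (supp x) x.2 (by
      rintro ⟨i, j⟩
      refine (supp_mem ?_).trans (supp_mem ((hf _).2 ⟨i, rfl⟩))
      exact (hg i _).2 ⟨j, rfl⟩)
    refine ⟨y, h1, fun w => ?_⟩
    rw [h2]
    constructor
    · rintro ⟨⟨i, j⟩, rfl⟩
      exact ⟨f i, (hf _).2 ⟨i, rfl⟩, (hg i _).2 ⟨j, rfl⟩⟩
    · rintro ⟨y, hy, hw⟩
      obtain ⟨i, rfl⟩ := (hf _).1 hy
      obtain ⟨j, rfl⟩ := (hg i _).1 hw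
      exact ⟨⟨i, j⟩, rfl⟩
  powerset := by
    intro x _
    obtain ⟨ι, f, hf⟩ := fam x
    have : ∀ S : Set ι, ∃ y : NU A, IsSet y ∧ (∀ z, mem z y ↔ ∃ i : S, z = f i.1) ∧
        supp y ⊆ supp x := by
      intro S
      obtain ⟨y, h1, h2, h3⟩ := ofFam (fun i : S => f i.1) (by
        refine x.2.mono (Set.iUnion_subset fun i => ?_)
        exact supp_mem ((hf _).2 ⟨i.1, rfl⟩))
      refine ⟨y, h1, h2, ?_⟩
      rw [h3]
      refine Set.iUnion_subset fun i => ?_
      exact supp_mem ((hf _).2 ⟨i.1, rfl⟩)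
    choose g hg1 hg2 hg3 using this
    obtain ⟨y, h1, h2⟩ := ofFam' g (supp x) x.2 hg3
    refine ⟨y, h1, fun w => ?_⟩
    rw [h2]
    constructor
    · rintro ⟨S, rfl⟩
      refine ⟨hg1 S, fun a ha => ?_⟩
      obtain ⟨i, rfl⟩ := (hg2 S a).1 ha
      exact (hf _).2 ⟨i.1, rfl⟩
    · rintro ⟨hw, hw'⟩
      refine ⟨{i | mem (f i) w}, ext hw (hg1 _) (fun z => ?_)⟩
      rw [hg2]
      constructor
      · intro hz
        obtain ⟨i, rfl⟩ := (hf _).1 (hw' z hz)
        exact ⟨⟨i, hz⟩, rfl⟩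
      · rintro ⟨⟨i, hi⟩, rfl⟩
        exact hi
  infinity := by
    -- the numerals
    have hsucc : ∀ y : NU A, ∃ z : NU A, IsSet z ∧ (∀ a, mem a z ↔ mem a y ∨ a = y) ∧
        supp z ⊆ supp y := by
      intro y
      obtain ⟨ι, f, hf⟩ := fam y
      obtain ⟨z, h1, h2, h3⟩ := ofFam (fun i : Option ι => i.elim y f) (by
        refine y.2.mono (Set.iUnion_subset fun i => ?_)
        cases i with
        | none => exact subset_rfl
        | some i => exact supp_mem ((hf _).2 ⟨i, rfl⟩))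
      refine ⟨z, h1, fun a => ?_, ?_⟩
      · rw [h2, hf]
        constructor
        · rintro ⟨i, rfl⟩
          cases i with
          | none => exact Or.inr rfl
          | some i => exact Or.inl ⟨i, rfl⟩
        · rintro (⟨i, rfl⟩ | rfl)
          · exact ⟨some i, rfl⟩
          · exact ⟨none, rfl⟩
      · rw [h3]
        refine Set.iUnion_subset fun i => ?_
        cases i with
        | none => exact subset_rfl
        | some i => exact supp_mem ((hf _).2 ⟨i, rfl⟩)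
    choose s hs1 hs2 hs3 using hsucc
    obtain ⟨e, he1, he2, he3⟩ := ofFam (fun i : Empty => (i.elim : NU A)) (by simp)
    have he3' : supp e = ∅ := by rw [he3]; simp
    let num : ℕ → NU A := fun n => Nat.rec e (fun _ y => s y) n
    have hnum : ∀ n, supp (num n) ⊆ ∅ := by
      intro n
      induction n with
      | zero => exact he3'.subset
      | succ n ih => exact (hs3 _).trans ih
    obtain ⟨x, hx1, hx2⟩ := ofFam' num ∅ Set.countable_empty hnum
    refine ⟨x, hx1, ⟨e, (hx2 _).2 ⟨0, rfl⟩, he1, fun a ha => ?_⟩, fun y hy => ?_⟩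
    · obtain ⟨i, -⟩ := (he2 a).1 ha
      exact i.elim
    · obtain ⟨n, rfl⟩ := (hx2 _).1 hy
      exact ⟨s (num n), (hx2 _).2 ⟨n + 1, rfl⟩, hs1 _, hs2 _⟩
  separation := fun φ v a _ => sep (fun x => φ.Realize (cons x v)) a

/-- every relation between elements of two sets is coded by a set -/
theorem relcode [Nonempty A] (D Y : NU A) (R : NU A → NU A → Prop)
    (hR : ∀ d y, R d y → mem d D ∧ mem y Y) :
    ∃ k : NU A, IsSet k ∧ (∀ d y, SRel k d y ↔ R d y) := by
  obtain ⟨ι, f, hf⟩ := fam D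
  obtain ⟨κ, g, hg⟩ := fam Y
  have hop : ∀ x y : NU A, ∃ p, IsOPair p x y ∧ supp p = supp x ∪ supp y := by
    intro x y
    obtain ⟨s, hs, hs'⟩ := pairing x x
    obtain ⟨t, ht, ht'⟩ := pairing x y
    obtain ⟨p, hp, hp'⟩ := pairing s t
    refine ⟨p, ⟨hp.1, fun z => ?_⟩, ?_⟩
    · rw [hp.2]
      constructor
      · rintro (rfl | rfl)
        · exact Or.inl hs
        · exact Or.inr ht
      · rintro (h | h)
        · exact Or.inl (zu.upair_unique h hs)
        · exact Or.inr (zu.upair_unique h ht)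
    · rw [hp', hs', ht']
      ext a
      simp
  choose op hop1 hop2 using hop
  obtain ⟨k, h1, h2⟩ := ofFam' (fun p : {p : ι × κ // R (f p.1) (g p.2)} => op (f p.1.1) (g p.1.2))
    (supp D ∪ supp Y) (D.2.union Y.2) (by
    rintro ⟨⟨i, j⟩, hij⟩
    rw [hop2]
    exact Set.union_subset_union (supp_mem ((hf _).2 ⟨i, rfl⟩)) (supp_mem ((hg _).2 ⟨j, rfl⟩)))
  refine ⟨k, h1, fun d y => ?_⟩
  constructor
  · rintro ⟨p, hp, hpk⟩
    obtain ⟨⟨⟨i, j⟩, hij⟩, rfl⟩ := (h2 p).1 hpk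
    obtain ⟨rfl, rfl⟩ := zu.opair_inj hp (hop1 _ _)
    exact hij
  · intro h
    obtain ⟨hd, hy⟩ := hR d y h
    obtain ⟨i, rfl⟩ := (hf _).1 hd
    obtain ⟨j, rfl⟩ := (hg _).1 hy
    exact ⟨op (f i) (g j), hop1 _ _, (h2 _).2 ⟨⟨⟨i, j⟩, h⟩, rfl⟩⟩

/-- the action of a permutation of `A` -/
def act (π : Equiv.Perm A) (x : NU A) : NU A :=
  ⟨QU.act π x.1, by rw [QU.supp_act]; exact x.2.image π⟩

theorem supp_act (π : Equiv.Perm A) (x : NU A) : supp (act π x) = π '' supp x :=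
  QU.supp_act π x.1

theorem act_fix (π : Equiv.Perm A) (x : NU A) (h : ∀ a ∈ supp x, π a = a) : act π x = x :=
  Subtype.ext (QU.act_fix π x.1 h)

/-- the automorphism of the model given by a permutation of `A` -/
def aut (π : Equiv.Perm A) : NU A ≃[LU] NU A where
  toFun := act π
  invFun := act π⁻¹
  left_inv x := Subtype.ext (by
    show QU.act π⁻¹ (QU.act π x.1) = x.1
    rw [QU.act_act, inv_mul_cancel, QU.act_one])
  right_inv x := Subtype.ext (by
    show QU.act π (QU.act π⁻¹ x.1) = x.1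
    rw [QU.act_act, mul_inv_cancel, QU.act_one])
  map_fun' := fun f _ => Empty.elim f
  map_rel' := by
    intro n r xs
    cases r with
    | ure =>
      show (∃ a, QU.act π (xs 0).1 = QU.ur a) ↔ (∃ a, (xs 0).1 = QU.ur a)
      constructor
      · rintro ⟨a, ha⟩
        refine ⟨π⁻¹ a, QU.act_inj π ?_⟩
        rw [ha, QU.act_ur]
        simp
      · rintro ⟨a, ha⟩
        exact ⟨π a, by rw [ha, QU.act_ur]⟩
    | mem => exact QU.mem_act π

theorem realize_act (π : Equiv.Perm A) (φ : LU.Formula ℕ) (v : ℕ → NU A) :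
    φ.Realize (act π ∘ v) ↔ φ.Realize v :=
  StrongHomClass.realize_formula (aut π) φ

theorem extend_perm [Uncountable A] (B S : Set A) (hB : B.Countable) (hS : S.Countable)
    (c : ℕ → A) (hc : Function.Injective c) (hcB : ∀ n, c n ∉ B) :
    ∃ π : Equiv.Perm A, (∀ a ∈ B, π a = a) ∧ ∀ a ∈ S, π a ∈ B ∪ Set.range c := by
  classical
  have hBS : (B ∪ S).Countable := hB.union hS
  obtain ⟨e, he⟩ := hBS.exists_injective_nat
  let f : (B ∪ S : Set A) → A := fun a => if (a : A) ∈ B then a else c (e a)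
  have hf : Function.Injective f := by
    intro a b hab
    simp only [f] at hab
    split_ifs at hab with h1 h2 h2
    · exact Subtype.ext hab
    · exact absurd (hab ▸ h1) (hcB _)
    · exact absurd (hab ▸ h2) (hcB _)
    · exact he (hc hab)
  obtain ⟨g, hg⟩ := Cardinal.extend_function_of_lt ⟨f, hf⟩ (by
    refine lt_of_le_of_lt (Cardinal.le_aleph0_iff_set_countable.2 hBS) ?_
    exact Cardinal.aleph0_lt_mk) ⟨Equiv.refl A⟩
  refine ⟨g, fun a ha => ?_, fun a ha => ?_⟩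
  · have := hg ⟨a, Or.inl ha⟩
    simp only [Function.Embedding.coeFn_mk, f, if_pos ha] at this
    exact this
  · have := hg ⟨a, Or.inr ha⟩
    simp only [Function.Embedding.coeFn_mk, f] at this
    rw [this]
    split_ifs with h
    · exact Or.inl h
    · exact Or.inr ⟨_, rfl⟩

theorem exists_seq [Uncountable A] (B : Set A) (hB : B.Countable) :
    ∃ c : ℕ → A, Function.Injective c ∧ ∀ n, c n ∉ B := by
  have : Set.Infinite Bᶜ := by
    intro h
    have : (Set.univ : Set A).Countable := by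
      rw [← Set.union_compl_self B]
      exact hB.union h.countable
    exact Set.not_countable_univ this
  obtain ⟨e⟩ := this.natEmbedding
  exact ⟨fun n => (this.natEmbedding _ n : A), fun a b h => (this.natEmbedding _).injective
    (Subtype.ext h), fun n => (this.natEmbedding _ n).2⟩

theorem collection [Uncountable A] (φ : LU.Formula ℕ) (v : ℕ → NU A) (w : NU A)
    (h : ∀ x, mem x w → ∃ y, φ.Realize (cons x (cons y v))) :
    ∃ z : NU A, IsSet z ∧ ∀ x, mem x w → ∃ y, mem y z ∧ φ.Realize (cons x (cons y v)) := by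
  obtain ⟨ι, f, hf⟩ := fam w
  choose y hy using fun i => h (f i) ((hf _).2 ⟨i, rfl⟩)
  let B : Set A := supp w ∪ ⋃ n, supp (v n)
  have hB : B.Countable := w.2.union (Set.countable_iUnion fun n => (v n).2)
  obtain ⟨c, hc, hcB⟩ := exists_seq B hB
  choose π hπ1 hπ2 using fun i => extend_perm B (supp (y i)) hB (y i).2 c hc hcB
  obtain ⟨z, hz1, hz2⟩ := ofFam' (fun i => act (π i) (y i)) (B ∪ Set.range c)
    (hB.union (Set.countable_range c)) (by
    intro i
    rw [supp_act]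
    rintro _ ⟨a, ha, rfl⟩
    exact hπ2 i a ha)
  refine ⟨z, hz1, fun x hx => ?_⟩
  obtain ⟨i, rfl⟩ := (hf _).1 hx
  refine ⟨act (π i) (y i), (hz2 _).2 ⟨i, rfl⟩, ?_⟩
  have key : cons (f i) (cons (act (π i) (y i)) v) = act (π i) ∘ cons (f i) (cons (y i) v) := by
    funext n
    match n with
    | 0 =>
      refine (act_fix _ _ fun a ha => hπ1 i a (Or.inl ?_)).symm
      exact supp_mem ((hf _).2 ⟨i, rfl⟩) ha
    | 1 => rfl
    | n + 2 =>
      refine (act_fix _ _ fun a ha => hπ1 i a (Or.inr ?_)).symm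
      exact Set.mem_iUnion.2 ⟨n, ha⟩
  rw [key, realize_act]
  exact hy i

theorem choice [Nonempty A] : AxChoice (NU A) := by
  classical
  intro x hx
  obtain ⟨ι, f, hf⟩ := fam x
  -- a well-ordering of the elements of `x`
  let E : Type 1 := {z : NU A // mem z x}
  let r : E → E → Prop := WellOrderingRel
  obtain ⟨k, hk, hk'⟩ := relcode x x (fun a b => ∃ (ha : mem a x) (hb : mem b x),
    r ⟨a, ha⟩ ⟨b, hb⟩) (fun a b ⟨ha, hb, _⟩ => ⟨ha, hb⟩)
  refine ⟨k, hk, ?_, ?_, ?_, ?_⟩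
  · intro a b c _ _ _ hab hbc
    rw [hk'] at hab hbc ⊢
    obtain ⟨ha, hb, h1⟩ := hab
    obtain ⟨hb', hc, h2⟩ := hbc
    exact ⟨ha, hc, _root_.trans h1 h2⟩
  · intro a _ haa
    rw [hk'] at haa
    obtain ⟨ha, _, h1⟩ := haa
    exact irrefl _ h1
  · intro a b ha hb hab
    rw [hk', hk']
    rcases trichotomous_of r ⟨a, ha⟩ ⟨b, hb⟩ with h | h | h
    · exact Or.inl ⟨ha, hb, h⟩
    · exact absurd (congrArg Subtype.val h) hab
    · exact Or.inr ⟨hb, ha, h⟩
  · intro s _ hsne hsx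
    obtain ⟨a, ha⟩ := hsne
    obtain ⟨m, hm, hm'⟩ := (IsWellFounded.wf (r := r)).has_min {z : E | mem z.1 s}
      ⟨⟨a, hsx a ha⟩, ha⟩
    refine ⟨m.1, hm, fun b hb hbm => ?_⟩
    rw [hk']
    refine ⟨m.2, hsx b hb, ?_⟩
    rcases trichotomous_of r m ⟨b, hsx b hb⟩ with h | h | h
    · exact h
    · exact absurd (congrArg Subtype.val h).symm hbm
    · exact absurd h (hm' ⟨b, hsx b hb⟩ hb)

theorem zfcu [Uncountable A] : ZFCU (NU A) where
  zu := zu
  replacement := by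
    intro φ v w hw h
    obtain ⟨z, -, hz⟩ := collection φ v w (fun x hx => (h x hx).exists)
    obtain ⟨z', hz', hz''⟩ := sep (fun y => ∃ x, mem x w ∧ φ.Realize (cons x (cons y v))) z
    refine ⟨z', hz', fun y => ?_⟩
    rw [hz'']
    constructor
    · exact fun h => h.2
    · rintro ⟨x, hx, hy⟩
      refine ⟨?_, x, hx, hy⟩
      obtain ⟨y', hy', hy''⟩ := hz x hx
      rwa [(h x hx).unique hy hy'']
  choice := choice
  collection := fun φ v w _ h => collection φ v w h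

theorem not_set [Uncountable A] : ¬ ∃ a : NU A, ∀ x, ure x → mem x a := by
  rintro ⟨a, ha⟩
  have : (Set.univ : Set A) ⊆ supp a := by
    intro b _
    exact supp_mem (ha (ur b) (ure_ur b)) rfl
  exact Set.not_countable_univ (a.2.mono this)

theorem few [Uncountable A] : Few (NU A) := by
  classical
  obtain ⟨c, hc, -⟩ := exists_seq (A := A) ∅ Set.countable_empty
  have hcr : (Set.range c).Countable := Set.countable_range c
  obtain ⟨X, hX, hX'⟩ := ofFam' (fun n : ℕ => ur (c (2 * n))) (Set.range c) hcr (by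
    intro n
    rw [supp_ur]
    simp)
  obtain ⟨Y, hY, hY'⟩ := ofFam' (fun n : ℕ => ur (c n)) (Set.range c) hcr (by
    intro n
    rw [supp_ur]
    simp)
  have hinj : ∀ {m n}, ur (c m) = ur (c n) → m = n := fun h => hc (ur_inj h)
  -- enumeration of the elements of a set of urelements
  have henum : ∀ D : NU A, URS D → ∃ e : NU A → ℕ, ∀ x y, mem x D → mem y D → e x = e y → x = y := by
    intro D hD
    obtain ⟨e, he⟩ := D.2.exists_injective_nat
    refine ⟨fun x => if h : ∃ a : QU.supp D.1, x = ur a.1 then e h.choose else 0, ?_⟩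
    have hex : ∀ x, mem x D → ∃ a : QU.supp D.1, x = ur a.1 := by
      intro x hx
      obtain ⟨a, rfl⟩ := ure_iff.1 (hD.2 x hx)
      exact ⟨⟨a, supp_mem hx rfl⟩, rfl⟩
    intro x y hx hy hxy
    have h1 := hex x hx
    have h2 := hex y hy
    simp only [dif_pos h1, dif_pos h2] at hxy
    have := he hxy
    rw [h1.choose_spec, h2.choose_spec, this]
  refine ⟨X, Y, ?_, ?_, ?_⟩
  · intro x hx
    obtain ⟨n, rfl⟩ := (hX' x).1 hx
    exact (hY' _).2 ⟨_, rfl⟩
  · intro D hD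
    obtain ⟨e, he⟩ := henum D hD
    obtain ⟨k, -, hk'⟩ := relcode D X (fun d y => mem d D ∧ y = ur (c (2 * e d))) (by
      rintro d y ⟨h1, rfl⟩
      exact ⟨h1, (hX' _).2 ⟨_, rfl⟩⟩)
    refine ⟨k, ?_, ?_, ?_, ?_⟩
    · intro d y h
      obtain ⟨h1, rfl⟩ := (hk' _ _).1 h
      exact ⟨h1, (hX' _).2 ⟨_, rfl⟩⟩
    · intro d hd
      exact ⟨_, (hk' _ _).2 ⟨hd, rfl⟩⟩
    · intro d y y' h h'
      obtain ⟨h1, rfl⟩ := (hk' _ _).1 h
      obtain ⟨h1, rfl⟩ := (hk' _ _).1 h'
      rfl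
    · intro d d' y h h'
      obtain ⟨h1, rfl⟩ := (hk' _ _).1 h
      obtain ⟨h1', h2⟩ := (hk' _ _).1 h'
      have := hinj h2
      exact he _ _ h1 h1' (by omega)
  · intro D E i hD hE hDE hi
    obtain ⟨e, he⟩ := henum E hE
    obtain ⟨k, -, hk'⟩ := relcode E Y (fun d y => SRel i d y ∨
        (mem d E ∧ ¬ mem d D ∧ y = ur (c (2 * e d + 1)))) (by
      rintro d y (h | ⟨h1, -, rfl⟩)
      · obtain ⟨h1, h2⟩ := hi.1 _ _ h
        obtain ⟨n, rfl⟩ := (hX' y).1 h2
        exact ⟨hDE _ h1, (hY' _).2 ⟨_, rfl⟩⟩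
      · exact ⟨h1, (hY' _).2 ⟨_, rfl⟩⟩)
    refine ⟨k, ⟨?_, ?_, ?_, ?_⟩, ?_⟩
    · intro d y h
      rcases (hk' _ _).1 h with h | ⟨h1, -, rfl⟩
      · obtain ⟨h1, h2⟩ := hi.1 _ _ h
        obtain ⟨n, rfl⟩ := (hX' y).1 h2
        exact ⟨hDE _ h1, (hY' _).2 ⟨_, rfl⟩⟩
      · exact ⟨h1, (hY' _).2 ⟨_, rfl⟩⟩
    · intro d hd
      by_cases hdD : mem d D
      · obtain ⟨y, hy⟩ := hi.2.1 d hdD
        exact ⟨y, (hk' _ _).2 (Or.inl hy)⟩
      · exact ⟨_, (hk' _ _).2 (Or.inr ⟨hd, hdD, rfl⟩)⟩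
    · intro d y y' h h'
      rcases (hk' _ _).1 h with h | ⟨h1, h2, rfl⟩ <;>
        rcases (hk' _ _).1 h' with h' | ⟨h1', h2', rfl⟩
      · exact hi.2.2.1 _ _ _ h h'
      · exact absurd (hi.1 _ _ h).1 h2'
      · exact absurd (hi.1 _ _ h').1 h2
      · rfl
    · intro d d' y h h'
      rcases (hk' _ _).1 h with h | ⟨h1, h2, rfl⟩ <;>
        rcases (hk' _ _).1 h' with h' | ⟨h1', h2', h3'⟩
      · exact hi.2.2.2 _ _ _ h h'
      · obtain ⟨n, rfl⟩ := (hX' y).1 (hi.1 _ _ h).2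
        have := hinj h3'
        omega
      · obtain ⟨n, hn⟩ := (hX' _).1 (hi.1 _ _ h').2
        have := hinj hn
        omega
      · have := hinj h3'
        exact he _ _ h1 h1' (by omega)
    · intro d y h
      exact (hk' _ _).2 (Or.inl h)

end NU

end Pool.Agent.Urel
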