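import Pool.Agent.Urel.TMain

/-!
# The class theory refutes few urelements: the main argument
-/

namespace Pool.Agent.Urel

open FirstOrder FirstOrder.Language

universe u v w

variable {M : Type u} {C : Type v} [UStr M] [CMem M C]

/-- the elements of the domains of the relations in `v` lie in `⋃⋃⋃ v` -/
theorem dom_bound (T : ZU M) (v : M) : ∃ W : M, ∀ k d y, mem k v → SRel k d y → mem d W := by
  obtain ⟨v1, hv1, hv1'⟩ := T.union' v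
  obtain ⟨v2, hv2, hv2'⟩ := T.union' v1
  obtain ⟨v3, hv3, hv3'⟩ := T.union' v2
  refine ⟨v3, fun k d y hk hkd => ?_⟩
  obtain ⟨p, hp, hpk⟩ := hkd
  obtain ⟨s, hs⟩ := T.pairing d d
  rw [hv3']
  refine ⟨s, ?_, (hs.2 d).2 (Or.inl rfl)⟩
  rw [hv2']
  refine ⟨p, ?_, (hp.2 s).2 (Or.inl hs)⟩
  rw [hv1']
  exact ⟨k, hk, hpk⟩

theorem few_false (T : GBcUCollGC M C) (hns : ¬ ∃ a : M, ∀ x, ure x → mem x a)
    (hfew : Few M) : False := by
  classical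
  obtain ⟨F, hF, hF'⟩ := T.global_choice
  obtain ⟨X, Y, hXY, H0, H1⟩ := hfew
  have injXY : ∀ {i D : M}, Inj i D X → Inj i D Y := fun h =>
    ⟨fun d y hdy => ⟨(h.1 d y hdy).1, hXY _ (h.1 d y hdy).2⟩, h.2⟩
  -- existence of the types
  obtain ⟨W, hW, hWb⟩ := bound_pairs T F Y
  obtain ⟨W1, hW1, hW1'⟩ := T.zu.powerset' W
  obtain ⟨W2, hW2, hW2'⟩ := T.zu.powerset' W1
  have exS : ∀ k D, Inj k D Y → ∃ s, IsS F k s ∧ mem s W1 := by
    intro k D hk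
    obtain ⟨s, hs, hs'⟩ := T.sep (P := fun p => ∃ U y, IsOPair p U y ∧ St F k U y) (by
      refine FO.ex (FO.ex ?_)
      exact FO.and (FO.isOPair FOF.var.weak.weak FOF.var.weak FOF.var)
        (FO.st F (FOF.param k) FOF.var.weak FOF.var)) W
    have h1 : IsS F k s := by
      refine ⟨hs, fun p => ?_⟩
      rw [hs']
      constructor
      · exact fun h => h.2
      · rintro ⟨U, y, hp, hst⟩
        exact ⟨hWb k D p U y hk hp hst, U, y, hp, hst⟩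
    refine ⟨s, h1, ?_⟩
    rw [hW1']
    exact ⟨hs, fun p hp => ((hs' p).1 hp).1⟩
  have exT : ∀ i, ∃ t, IsT F Y i t ∧ mem t W2 := by
    intro i
    obtain ⟨t, ht, ht'⟩ := T.sep (P := fun s => ∃ k D, URS D ∧ Inj k D Y ∧ Ext i k ∧ IsS F k s) (by
      refine FO.ex (FO.ex ?_)
      exact FO.and (FO.urs FOF.var) (FO.and (FO.inj FOF.var.weak FOF.var (FOF.param Y))
        (FO.and (FO.ext (FOF.param i) FOF.var.weak) (FO.isS F FOF.var.weak FOF.var.weak.weak))))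
      W1
    refine ⟨t, ⟨ht, fun s => ?_⟩, ?_⟩
    · rw [ht']
      constructor
      · exact fun h => h.2
      · rintro ⟨k, D, h1, h2, h3, h4⟩
        refine ⟨?_, k, D, h1, h2, h3, h4⟩
        obtain ⟨s', hs', hs''⟩ := exS k D h2
        obtain rfl := IsS.unique T.zu h4 hs'
        exact hs''
    · rw [hW2']
      exact ⟨ht, fun s hs => ((ht' s).1 hs).1⟩
  -- first collection
  let Good1 : M → M → Prop := fun p i => ∃ D, URS D ∧ Inj i D X ∧ IsT F Y i p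
  obtain ⟨v1, hv1, hv1'⟩ := T.coll (P := fun p i => (∃ i', ∃ D, URS D ∧ Inj i' D X ∧ IsT F Y i' p) →
      ∃ D, URS D ∧ Inj i D X ∧ IsT F Y i p) (by
    refine FO.imp (FO.ex (FO.ex ?_)) (FO.ex ?_)
    · exact FO.and (FO.urs FOF.var) (FO.and (FO.inj FOF.var.weak FOF.var (FOF.param X))
        (FO.isT F Y FOF.var.weak FOF.var.weak.weak.weak))
    · exact FO.and (FO.urs FOF.var) (FO.and (FO.inj FOF.var.weak FOF.var (FOF.param X))
        (FO.isT F Y FOF.var.weak FOF.var.weak.weak))) W2 hW2 (by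
    intro p _
    by_cases h : ∃ i', ∃ D, URS D ∧ Inj i' D X ∧ IsT F Y i' p
    · obtain ⟨i, hi⟩ := h
      exact ⟨i, fun _ => hi⟩
    · exact ⟨p, fun h' => absurd h' h⟩)
  -- the set `A1`
  obtain ⟨B1, hB1⟩ := dom_bound T.zu v1
  obtain ⟨A1, hA1, hA1'⟩ := T.sep (P := fun d => ∃ i D, mem i v1 ∧ URS D ∧ Inj i D X ∧ mem d D) (by
    refine FO.ex (FO.ex ?_)
    exact FO.and (FO.mem FOF.var.weak (FOF.param v1)) (FO.and (FO.urs FOF.var)
      (FO.and (FO.inj FOF.var.weak FOF.var (FOF.param X)) (FO.mem FOF.var.weak.weak FOF.var)))) B1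
  have hA1'' : ∀ d, mem d A1 ↔ ∃ i D, mem i v1 ∧ URS D ∧ Inj i D X ∧ mem d D := by
    intro d
    rw [hA1']
    constructor
    · exact fun h => h.2
    · rintro ⟨i, D, h1, h2, h3, h4⟩
      obtain ⟨y, hy⟩ := h3.2.1 d h4
      exact ⟨hB1 _ _ _ h1 hy, i, D, h1, h2, h3, h4⟩
  have hA1ur : URS A1 := by
    refine ⟨hA1, fun d hd => ?_⟩
    obtain ⟨i, D, h1, h2, h3, h4⟩ := (hA1'' d).1 hd
    exact h2.2 d h4
  -- an injection of `A1` into `X`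
  obtain ⟨i1, hi1⟩ := H0 A1 hA1ur
  -- second collection
  obtain ⟨v2, hv2, hv2'⟩ := T.coll (P := fun s l =>
      (∃ l', ∃ D, URS D ∧ Inj l' D Y ∧ Ext i1 l' ∧ IsS F l' s) →
      ∃ D, URS D ∧ Inj l D Y ∧ Ext i1 l ∧ IsS F l s) (by
    refine FO.imp (FO.ex (FO.ex ?_)) (FO.ex ?_)
    · exact FO.and (FO.urs FOF.var) (FO.and (FO.inj FOF.var.weak FOF.var (FOF.param Y))
        (FO.and (FO.ext (FOF.param i1) FOF.var.weak)
          (FO.isS F FOF.var.weak FOF.var.weak.weak.weak)))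
    · exact FO.and (FO.urs FOF.var) (FO.and (FO.inj FOF.var.weak FOF.var (FOF.param Y))
        (FO.and (FO.ext (FOF.param i1) FOF.var.weak)
          (FO.isS F FOF.var.weak FOF.var.weak.weak)))) W1 hW1 (by
    intro p _
    by_cases h : ∃ l', ∃ D, URS D ∧ Inj l' D Y ∧ Ext i1 l' ∧ IsS F l' p
    · obtain ⟨i, hi⟩ := h
      exact ⟨i, fun _ => hi⟩
    · exact ⟨p, fun h' => absurd h' h⟩)
  -- a new urelement
  obtain ⟨a0, ha0, ha0'⟩ : ∃ a0 : M, ure a0 ∧ ¬ mem a0 A1 := by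
    by_contra hcon
    push Not at hcon
    exact hns ⟨A1, hcon⟩
  -- the set `A2`
  obtain ⟨B2, hB2⟩ := dom_bound T.zu v2
  obtain ⟨s0, hs0⟩ := T.zu.pairing a0 a0
  obtain ⟨Z1, hZ1⟩ := T.zu.pairing B2 A1
  obtain ⟨Z2, hZ2, hZ2'⟩ := T.zu.union' Z1
  obtain ⟨Z3, hZ3⟩ := T.zu.pairing Z2 s0
  obtain ⟨Z4, hZ4, hZ4'⟩ := T.zu.union' Z3
  obtain ⟨A2, hA2, hA2'⟩ := T.sep (P := fun d => (∃ l D, mem l v2 ∧ URS D ∧ Inj l D Y ∧ mem d D) ∨
      mem d A1 ∨ d = a0) (by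
    refine FO.or (FO.ex (FO.ex ?_)) (FO.or ?_ ?_)
    · exact FO.and (FO.mem FOF.var.weak (FOF.param v2)) (FO.and (FO.urs FOF.var)
        (FO.and (FO.inj FOF.var.weak FOF.var (FOF.param Y)) (FO.mem FOF.var.weak.weak FOF.var)))
    · exact FO.mem FOF.var (FOF.param A1)
    · exact FO.eq FOF.var (FOF.param a0)) Z4
  have hA2'' : ∀ d, mem d A2 ↔ (∃ l D, mem l v2 ∧ URS D ∧ Inj l D Y ∧ mem d D) ∨
      mem d A1 ∨ d = a0 := by
    intro d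
    rw [hA2']
    constructor
    · exact fun h => h.2
    · rintro (⟨l, D, h1, h2, h3, h4⟩ | h | rfl)
      · obtain ⟨y, hy⟩ := h3.2.1 d h4
        refine ⟨?_, Or.inl ⟨l, D, h1, h2, h3, h4⟩⟩
        rw [hZ4']
        refine ⟨Z2, (hZ3.2 _).2 (Or.inl rfl), ?_⟩
        rw [hZ2']
        exact ⟨B2, (hZ1.2 _).2 (Or.inl rfl), hB2 _ _ _ h1 hy⟩
      · refine ⟨?_, Or.inr (Or.inl h)⟩
        rw [hZ4']
        refine ⟨Z2, (hZ3.2 _).2 (Or.inl rfl), ?_⟩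
        rw [hZ2']
        exact ⟨A1, (hZ1.2 _).2 (Or.inr rfl), h⟩
      · refine ⟨?_, Or.inr (Or.inr rfl)⟩
        rw [hZ4']
        exact ⟨s0, (hZ3.2 _).2 (Or.inr rfl), (hs0.2 _).2 (Or.inl rfl)⟩
  have hA2ur : URS A2 := by
    refine ⟨hA2, fun d hd => ?_⟩
    rcases (hA2'' d).1 hd with ⟨l, D, h1, h2, h3, h4⟩ | h | rfl
    · exact h2.2 d h4
    · exact hA1ur.2 d h
    · exact ha0
  have hA12 : ∀ d, mem d A1 → mem d A2 := fun d hd => (hA2'' d).2 (Or.inr (Or.inl hd))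
  have ha0A2 : mem a0 A2 := (hA2'' a0).2 (Or.inr (Or.inr rfl))
  -- the injection `i2` of `A2` into `X` and its type
  obtain ⟨i2, hi2⟩ := H0 A2 hA2ur
  obtain ⟨t2, ht2, ht2W⟩ := exT i2
  obtain ⟨i', hi'v, hi'⟩ := hv1' t2 ht2W
  obtain ⟨C', hC', hi'X, hi't⟩ := hi' ⟨i2, A2, hA2ur, hi2, ht2⟩
  have hC'A1 : ∀ d, mem d C' → mem d A1 := fun d hd =>
    (hA1'' d).2 ⟨i', C', hi'v, hC', hi'X, hd⟩
  have hi'Y := injXY hi'X
  obtain ⟨s', hs', -⟩ := exS i' C' hi'Y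
  -- the range of `i2` is contained in the range of `i'`
  have hran : ∀ x y, SRel i2 x y → ∃ d, SRel i' d y := by
    have h1 : mem s' t2 := (hi't.2 s').2 ⟨i', C', hC', hi'Y, fun _ _ h => h, hs'⟩
    obtain ⟨k, D, hD, hk, hek, hks⟩ := (ht2.2 s').1 h1
    intro x y hxy
    exact range_eq T hF' hk hks hs' (hek _ _ hxy)
  -- `k'` extends `i'` to `A2`
  obtain ⟨k', hk', hek'⟩ := H1 C' A2 i' hC' hA2ur (fun d hd => hA12 d (hC'A1 d hd)) hi'X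
  obtain ⟨sk', hsk', -⟩ := exS k' A2 hk'
  have h2 : mem sk' t2 := (hi't.2 sk').2 ⟨k', A2, hA2ur, hk', hek', hsk'⟩
  obtain ⟨k, D, hD, hk, hek, hks⟩ := (ht2.2 sk').1 h2
  have hA2D : ∀ d, mem d A2 → mem d D := by
    intro d hd
    obtain ⟨y, hy⟩ := hi2.2.1 d hd
    exact (hk.1 _ _ (hek _ _ hy)).1
  -- `l` extends `i1` to `D`
  obtain ⟨l, hl, hel⟩ := H1 A1 D i1 hA1ur hD (fun d hd => hA2D d (hA12 d hd)) hi1
  obtain ⟨sl, hsl, hslW⟩ := exS l D hl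
  obtain ⟨l', hl'v, hl'⟩ := hv2' sl hslW
  obtain ⟨D'', hD'', hl'Y, hel', hl's⟩ := hl' ⟨l, D, hD, hl, hel, hsl⟩
  have hD''A2 : ∀ d, mem d D'' → mem d A2 := fun d hd =>
    (hA2'' d).2 (Or.inl ⟨l', D'', hl'v, hD'', hl'Y, hd⟩)
  -- the relation `V`
  let V : M → M → Prop := fun x z =>
    ∃ y a b, SRel k' x y ∧ SRel k a y ∧ SRel l a b ∧ SRel l' z b
  have hV : FO (LC C) M (fun p : (PUnit.{u+1} × M) × M => V p.1.2 p.2) := by
    refine FO.ex (FO.ex (FO.ex ?_))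
    exact FO.and (FO.sRel (FOF.param k') FOF.var.weak.weak.weak.weak FOF.var.weak.weak)
      (FO.and (FO.sRel (FOF.param k) FOF.var.weak FOF.var.weak.weak)
      (FO.and (FO.sRel (FOF.param l) FOF.var.weak FOF.var)
        (FO.sRel (FOF.param l') FOF.var.weak.weak.weak FOF.var)))
  have hVF : ∀ E E' d d', IsSet E → (∃ e, mem e E) → (∀ e, mem e E → mem e A2) → IsSet E' →
      (∀ z, mem z E' ↔ ∃ x, mem x E ∧ V x z) → CRel F E d → CRel F E' d' → V d d' := by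
    intro E E' d d' hE hEne hEA hE' hEE' hd hd'
    -- the intermediate set
    obtain ⟨G, hG, hG'⟩ := T.sep (P := fun a => ∃ x, mem x E ∧ ∃ y, SRel k' x y ∧ SRel k a y) (by
      refine FO.ex (FO.and (FO.mem FOF.var (FOF.param E)) (FO.ex ?_))
      exact FO.and (FO.sRel (FOF.param k') FOF.var.weak FOF.var)
        (FO.sRel (FOF.param k) FOF.var.weak.weak FOF.var)) D
    have hG'' : ∀ a, mem a G ↔ ∃ x, mem x E ∧ ∃ y, SRel k' x y ∧ SRel k a y := by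
      intro a
      rw [hG']
      constructor
      · exact fun h => h.2
      · rintro ⟨x, hx, y, h1, h2⟩
        exact ⟨(hk.1 _ _ h2).1, x, hx, y, h1, h2⟩
    have hGne : ∃ a, mem a G := by
      obtain ⟨e, he⟩ := hEne
      obtain ⟨y, hy⟩ := hk'.2.1 e (hEA e he)
      obtain ⟨a, ha⟩ := range_eq T hF' hk' hsk' hks hy
      exact ⟨a, (hG'' a).2 ⟨e, he, y, hy, ha⟩⟩
    obtain ⟨g, hgG, hg⟩ := hF' G hG hGne
    obtain ⟨y, hy, hy'⟩ := transfer T hF hF' hk' hk hsk' hks hE hEne hEA hG hG'' hd hg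
    have hE'' : ∀ z, mem z E' ↔ ∃ a, mem a G ∧ ∃ b, SRel l a b ∧ SRel l' z b := by
      intro z
      rw [hEE']
      constructor
      · rintro ⟨x, hx, y, a, b, h1, h2, h3, h4⟩
        exact ⟨a, (hG'' a).2 ⟨x, hx, y, h1, h2⟩, b, h3, h4⟩
      · rintro ⟨a, ha, b, h3, h4⟩
        obtain ⟨x, hx, y, h1, h2⟩ := (hG'' a).1 ha
        exact ⟨x, hx, y, a, b, h1, h2, h3, h4⟩
    obtain ⟨b, hb, hb'⟩ := transfer T hF hF' hl hl'Y hsl hl's hG hGne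
      (fun a ha => ((hG' a).1 ha).1) hE' hE'' hg hd'
    exact ⟨y, g, b, hy, hy', hb, hb'⟩
  have hVA : ∀ x z, V x z → mem x A2 ∧ mem z A2 := by
    rintro x z ⟨y, a, b, h1, h2, h3, h4⟩
    exact ⟨(hk'.1 _ _ h1).1, hD''A2 _ (hl'Y.1 _ _ h4).1⟩
  have hVtot : ∀ x, mem x A2 → ∃ z, V x z := by
    intro x hx
    obtain ⟨y, hy⟩ := hk'.2.1 x hx
    obtain ⟨a, ha⟩ := range_eq T hF' hk' hsk' hks hy
    obtain ⟨b, hb⟩ := hl.2.1 a (hk.1 _ _ ha).1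
    obtain ⟨z, hz⟩ := range_eq T hF' hl hsl hl's hb
    exact ⟨z, y, a, b, hy, ha, hb, hz⟩
  have hVfun : ∀ x z z', V x z → V x z' → z = z' := by
    rintro x z z' ⟨y, a, b, h1, h2, h3, h4⟩ ⟨y', a', b', h1', h2', h3', h4'⟩
    obtain rfl := hk'.2.2.1 _ _ _ h1 h1'
    obtain rfl := hk.2.2.2 _ _ _ h2 h2'
    obtain rfl := hl.2.2.1 _ _ _ h3 h3'
    exact hl'Y.2.2.2 _ _ _ h4 h4'
  have hVinj : ∀ x x' z, V x z → V x' z → x = x' := by
    rintro x x' z ⟨y, a, b, h1, h2, h3, h4⟩ ⟨y', a', b', h1', h2', h3', h4'⟩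
    obtain rfl := hl'Y.2.2.1 _ _ _ h4 h4'
    obtain rfl := hl.2.2.2 _ _ _ h3 h3'
    obtain rfl := hk.2.2.1 _ _ _ h2 h2'
    exact hk'.2.2.2 _ _ _ h1 h1'
  -- `V (ρ x) x` for `x` in `A1`, where `ρ x` is defined by `i' (ρ x) = i2 x`
  have hρV : ∀ x y d, mem x A1 → SRel i2 x y → SRel i' d y → V d x := by
    intro x y d hx hxy hd
    obtain ⟨b, hb⟩ := hi1.2.1 x hx
    exact ⟨y, x, b, hek' _ _ hd, hek _ _ hxy, hel _ _ hb, hel' _ _ hb⟩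
  have hρ : ∀ x, mem x A1 → ∃ x', mem x' A1 ∧ V x' x := by
    intro x hx
    obtain ⟨y, hy⟩ := hi2.2.1 x (hA12 x hx)
    obtain ⟨d, hd⟩ := hran _ _ hy
    exact ⟨d, hC'A1 d (hi'X.1 _ _ hd).1, hρV x y d hx hy hd⟩
  have hfix := rigid T hF' hV hA1 hA12 hVA hVtot hVfun hVinj hVF hρ
  -- the contradiction
  obtain ⟨y, hy⟩ := hi2.2.1 a0 ha0A2
  obtain ⟨b, hb⟩ := hran _ _ hy
  have hbA1 : mem b A1 := hC'A1 b (hi'X.1 _ _ hb).1
  obtain ⟨y', hy'⟩ := hi2.2.1 b (hA12 b hbA1)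
  obtain ⟨c, hc⟩ := hran _ _ hy'
  have h3 : V c b := hρV b y' c hbA1 hy' hc
  have h4 : V b b := hfix b hbA1
  obtain rfl := hVinj _ _ _ h3 h4
  obtain rfl := hi'X.2.2.1 _ _ _ hb hc
  obtain rfl := hi2.2.2.2 _ _ _ hy hy'
  exact ha0' hbA1

end Pool.Agent.Urel
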