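import Pool.Agent.Urel.NModel
import Pool.Agent.Urel.TFinal

/-!
# The separating sentence
-/

namespace Pool.Agent.Urel

open FirstOrder FirstOrder.Language

universe u v w

section

variable {α : Type} {n : ℕ}

/-- variable -/
def vr (i : Fin n) : LU.Term (α ⊕ Fin n) := Term.var (Sum.inr i)

def fMem (i j : Fin n) : LU.BoundedFormula α n :=
  Relations.boundedFormula₂ (L := LU) SymU.mem (vr i) (vr j)

def fUre (i : Fin n) : LU.BoundedFormula α n :=
  Relations.boundedFormula₁ (L := LU) SymU.ure (vr i)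

def fEq (i j : Fin n) : LU.BoundedFormula α n := Term.bdEqual (vr i) (vr j)

/-- one more variable in the context -/
abbrev cs (i : Fin n) : Fin (n + 1) := Fin.castSucc i

/-- the newest variable -/
abbrev la (n : ℕ) : Fin (n + 1) := Fin.last n

def fUPair (z x y : Fin n) : LU.BoundedFormula α n :=
  (fUre z).not ⊓ ((fMem (la n) (cs z)).iff (fEq (la n) (cs x) ⊔ fEq (la n) (cs y))).all

def fOPair (p x y : Fin n) : LU.BoundedFormula α n :=
  (fUre p).not ⊓ ((fMem (la n) (cs p)).iff
    (fUPair (la n) (cs x) (cs x) ⊔ fUPair (la n) (cs x) (cs y))).all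

def fSRel (r x y : Fin n) : LU.BoundedFormula α n :=
  (fOPair (la n) (cs x) (cs y) ⊓ fMem (la n) (cs r)).ex

def fURS (D : Fin n) : LU.BoundedFormula α n :=
  (fUre D).not ⊓ ((fMem (la n) (cs D)).imp (fUre (la n))).all

def fInj (i D X : Fin n) : LU.BoundedFormula α n :=
  ((fSRel (cs (cs i)) (cs (la n)) (la (n + 1))).imp
      (fMem (cs (la n)) (cs (cs D)) ⊓ fMem (la (n + 1)) (cs (cs X)))).all.all ⊓
  (((fMem (la n) (cs D)).imp (fSRel (cs (cs i)) (cs (la n)) (la (n + 1))).ex).all ⊓
  (((fSRel (cs (cs (cs i))) (cs (cs (la n))) (cs (la (n + 1)))).imp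
      ((fSRel (cs (cs (cs i))) (cs (cs (la n))) (la (n + 2))).imp
        (fEq (cs (la (n + 1))) (la (n + 2))))).all.all.all ⊓
  ((fSRel (cs (cs (cs i))) (cs (cs (la n))) (la (n + 2))).imp
      ((fSRel (cs (cs (cs i))) (cs (la (n + 1))) (la (n + 2))).imp
        (fEq (cs (cs (la n))) (cs (la (n + 1)))))).all.all.all))

def fExt (i k : Fin n) : LU.BoundedFormula α n :=
  ((fSRel (cs (cs i)) (cs (la n)) (la (n + 1))).imp
    (fSRel (cs (cs k)) (cs (la n)) (la (n + 1)))).all.all

/-- subset -/
def fSub (x y : Fin n) : LU.BoundedFormula α n :=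
  ((fMem (la n) (cs x)).imp (fMem (la n) (cs y))).all

/-- few urelements -/
def fFew : LU.Sentence :=
  ((fSub (cs (la 0)) (la 1)) ⊓
   (((fURS (la 2)).imp (fInj (la 3) (cs (la 2)) (cs (cs (cs (la 0))))).ex).all ⊓
    ((fURS (cs (cs (la 2)))).imp ((fURS (cs (la 3))).imp
      ((fSub (cs (cs (la 2))) (cs (la 3))).imp
        ((fInj (la 4) (cs (cs (la 2))) (cs (cs (cs (cs (la 0)))))).imp
          (fInj (la 5) (cs (cs (la 3))) (cs (cs (cs (cs (la 1)))))
            ⊓ fExt (cs (la 4)) (la 5)).ex)))).all.all.all)).ex.ex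

/-- the urelements form a set -/
def fSet : LU.Sentence := (((fUre (la 1)).imp (fMem (la 1) (cs (la 0)))).all).ex

/-- the separating sentence -/
def sigma : LU.Sentence := fSet ⊔ fFew.not

end

section

variable {M : Type u} [UStr M] {α : Type} {n : ℕ} {v : α → M} {xs : Fin n → M}

@[simp] theorem realize_fMem (i j : Fin n) : (fMem i j).Realize v xs ↔ mem (xs i) (xs j) := by
  unfold fMem
  rw [BoundedFormula.realize_rel₂]
  rfl

@[simp] theorem realize_fUre (i : Fin n) : (fUre i).Realize v xs ↔ ure (xs i) := by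
  unfold fUre
  rw [BoundedFormula.realize_rel₁]
  rfl

@[simp] theorem realize_fEq (i j : Fin n) : (fEq i j).Realize v xs ↔ xs i = xs j := by
  unfold fEq
  rw [BoundedFormula.realize_bdEqual]
  rfl

@[simp] theorem realize_fUPair (z x y : Fin n) :
    (fUPair z x y).Realize v xs ↔ IsUPair (xs z) (xs x) (xs y) := by
  simp [fUPair, IsUPair, IsSet]

@[simp] theorem realize_fOPair (z x y : Fin n) :
    (fOPair z x y).Realize v xs ↔ IsOPair (xs z) (xs x) (xs y) := by
  simp [fOPair, IsOPair, IsSet]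

@[simp] theorem realize_fSRel (z x y : Fin n) :
    (fSRel z x y).Realize v xs ↔ SRel (xs z) (xs x) (xs y) := by
  simp [fSRel, SRel]

@[simp] theorem realize_fURS (z : Fin n) :
    (fURS z).Realize v xs ↔ URS (xs z) := by
  simp [fURS, URS, IsSet]

@[simp] theorem realize_fInj (z x y : Fin n) :
    (fInj z x y).Realize v xs ↔ Inj (xs z) (xs x) (xs y) := by
  simp [fInj, Inj]

@[simp] theorem realize_fExt (x y : Fin n) :
    (fExt x y).Realize v xs ↔ Ext (xs x) (xs y) := by
  simp [fExt, Ext]

@[simp] theorem realize_fSub (x y : Fin n) :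
    (fSub x y).Realize v xs ↔ ∀ a, mem a (xs x) → mem a (xs y) := by
  simp [fSub]

end

section

variable {M : Type u} [UStr M]

theorem realize_fFew : M ⊨ fFew ↔ Few M := by
  simp only [Sentence.Realize, Formula.Realize, fFew, Few, BoundedFormula.realize_ex,
    BoundedFormula.realize_all, BoundedFormula.realize_inf, BoundedFormula.realize_imp,
    realize_fSub, realize_fURS, realize_fInj, realize_fExt, Fin.snoc_castSucc, Fin.snoc_last]

theorem realize_fSet : M ⊨ fSet ↔ ∃ a : M, ∀ x, ure x → mem x a := by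
  simp only [Sentence.Realize, Formula.Realize, fSet, BoundedFormula.realize_ex,
    BoundedFormula.realize_all, BoundedFormula.realize_imp, realize_fUre, realize_fMem,
    Fin.snoc_castSucc, Fin.snoc_last]

theorem realize_sigma : M ⊨ sigma ↔ (∃ a : M, ∀ x, ure x → mem x a) ∨ ¬ Few M := by
  unfold sigma
  rw [Sentence.realize_sup, Sentence.realize_not, realize_fFew, realize_fSet]

end

theorem sigma_true {M : Type u} {C : Type v} [UStr M] [CMem M C] (T : GBcUCollGC M C) :
    M ⊨ sigma := by
  rw [realize_sigma]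
  by_contra hcon
  rw [not_or, not_not] at hcon
  exact few_false T hcon.1 hcon.2

theorem sigma_false : ¬ (NU ℝ ⊨ sigma) := by
  rw [realize_sigma]
  rintro (h1 | h1)
  · exact NU.not_set h1
  · exact h1 NU.few

end Pool.Agent.Urel
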