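import Pool.Agent.Urel.Calc

/-!
# Basic consequences of the class theory
-/

namespace Pool.Agent.Urel

open FirstOrder FirstOrder.Language

universe u v w

section FOlemmas

variable {M : Type u} {C : Type v} [UStr M] [CMem M C]
variable {Γ : Type u} [Ctx M Γ]

theorem FO.mem {f g : Γ → M} (hf : FOF (LC C) M f) (hg : FOF (LC C) M g) :
    FO (LC C) M (fun e => mem (f e) (g e)) :=
  (FO.rel2 (L := LC C) (r := SymC.mem) hf hg).congr (fun _ => Iff.rfl)

theorem FO.ure {f : Γ → M} (hf : FOF (LC C) M f) :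
    FO (LC C) M (fun e => ure (f e)) :=
  (FO.rel1 (L := LC C) (r := SymC.ure) hf).congr (fun _ => Iff.rfl)

theorem FO.cmem {f : Γ → M} (hf : FOF (LC C) M f) (X : C) :
    FO (LC C) M (fun e => cmem (f e) X) :=
  (FO.rel1 (L := LC C) (r := SymC.cls X) hf).congr (fun _ => Iff.rfl)

theorem FO.isSet {f : Γ → M} (hf : FOF (LC C) M f) :
    FO (LC C) M (fun e => IsSet (f e)) := (FO.ure hf).not

theorem FO.isUPair {f g h : Γ → M} (hf : FOF (LC C) M f) (hg : FOF (LC C) M g)
    (hh : FOF (LC C) M h) : FO (LC C) M (fun e => IsUPair (f e) (g e) (h e)) := by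
  unfold IsUPair
  refine FO.and (FO.isSet hf) ?_
  refine FO.all ?_
  exact FO.iff (FO.mem FOF.var hf.weak)
    (FO.or (FO.eq FOF.var hg.weak) (FO.eq FOF.var hh.weak))

theorem FO.isOPair {f g h : Γ → M} (hf : FOF (LC C) M f) (hg : FOF (LC C) M g)
    (hh : FOF (LC C) M h) : FO (LC C) M (fun e => IsOPair (f e) (g e) (h e)) := by
  unfold IsOPair
  refine FO.and (FO.isSet hf) ?_
  refine FO.all ?_
  exact FO.iff (FO.mem FOF.var hf.weak)
    (FO.or (FO.isUPair FOF.var hg.weak hg.weak) (FO.isUPair FOF.var hg.weak hh.weak))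

theorem FO.sRel {f g h : Γ → M} (hf : FOF (LC C) M f) (hg : FOF (LC C) M g)
    (hh : FOF (LC C) M h) : FO (LC C) M (fun e => SRel (f e) (g e) (h e)) := by
  unfold SRel
  refine FO.ex ?_
  exact FO.and (FO.isOPair FOF.var hg.weak hh.weak) (FO.mem FOF.var hf.weak)

theorem FO.cRel {R : C} {g h : Γ → M} (hg : FOF (LC C) M g)
    (hh : FOF (LC C) M h) : FO (LC C) M (fun e => CRel R (g e) (h e)) := by
  unfold CRel
  refine FO.ex ?_
  exact FO.and (FO.isOPair FOF.var hg.weak hh.weak) (FO.cmem FOF.var R)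

end FOlemmas

section

variable {M : Type u} {C : Type v} [UStr M] [CMem M C]

/-- comprehension for definable relations with parameters -/
theorem GBcUCollGC.compr (T : GBcUCollGC M C) {P : M → Prop}
    (h : FO (LC C) M (fun p : PUnit.{u+1} × M => P p.2)) :
    ∃ X : C, ∀ x, cmem x X ↔ P x := by
  classical
  obtain ⟨φ, hφ⟩ := h
  -- restrict the free variables
  let S := φ.freeVarFinset
  obtain ⟨x₀, -⟩ := T.zu.infinity
  obtain ⟨k, ⟨eS⟩⟩ := Finite.exists_equiv_fin S
  -- variable `inr _` becomes `0`, the parameter `inl m` becomes `1 + index`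
  let f : S → ℕ := fun s => match s.1 with
    | Sum.inl _ => (eS s : ℕ) + 1
    | Sum.inr _ => 0
  let v : ℕ → M := fun j => if h : j < k then
    (match (eS.symm ⟨j, h⟩).1 with
      | Sum.inl m => m
      | Sum.inr _ => x₀) else x₀
  obtain ⟨X, hX⟩ := T.comprehension (φ.restrictFreeVar f) v
  refine ⟨X, fun x => ?_⟩
  rw [hX x]
  refine Iff.trans ?_ (hφ (PUnit.unit, x))
  refine BoundedFormula.realize_restrictFreeVar (Sum.elim id (Ctx.enc (M := M) (PUnit.unit, x)))
    (fun s => ?_)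
  rcases hs : s.1 with m | i
  · have : f s = (eS s : ℕ) + 1 := by simp [f, hs]
    rw [this]
    simp [cons, v, hs]
  · have : f s = 0 := by simp [f, hs]
    rw [this]
    revert hs
    refine fun _ => ?_
    have : i = vlast M PUnit := by
      apply Fin.ext
      have := i.2
      simp [Ctx.n] at this
      simp [vlast, this]
    rw [this]
    simp [cons, enc_vlast]

theorem ZU.opair_unique (T : ZU M) {p q x y : M} (hp : IsOPair p x y) (hq : IsOPair q x y) :
    p = q :=
  T.extensionality p q hp.1 hq.1 (fun z => by rw [hp.2, hq.2])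

theorem ZU.upair_unique (T : ZU M) {p q x y : M} (hp : IsUPair p x y) (hq : IsUPair q x y) :
    p = q :=
  T.extensionality p q hp.1 hq.1 (fun z => by rw [hp.2, hq.2])

theorem ZU.union' (T : ZU M) (x : M) :
    ∃ z, IsSet z ∧ ∀ w, mem w z ↔ ∃ y, mem y x ∧ mem w y := by
  classical
  by_cases hx : IsSet x
  · exact T.union x hx
  · obtain ⟨-, -, ⟨e, -, he, he'⟩, -⟩ := T.infinity
    refine ⟨e, he, fun w => ⟨fun h => absurd h (he' w), ?_⟩⟩
    rintro ⟨y, hy, -⟩
    exact absurd hy (T.urelements _ _ (not_not.1 hx))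

theorem ZU.powerset' (T : ZU M) (x : M) :
    ∃ z, IsSet z ∧ ∀ w, mem w z ↔ IsSet w ∧ ∀ a, mem a w → mem a x := by
  classical
  by_cases hx : IsSet x
  · exact T.powerset x hx
  · obtain ⟨-, -, ⟨e, -, he, he'⟩, -⟩ := T.infinity
    obtain ⟨z, hz⟩ := T.pairing e e
    refine ⟨z, hz.1, fun w => ?_⟩
    rw [hz.2]
    constructor
    · rintro (rfl | rfl) <;> exact ⟨he, fun a ha => absurd ha (he' a)⟩
    · rintro ⟨hw, hw'⟩
      left
      refine T.extensionality _ _ hw he (fun a => ⟨fun ha => ?_, fun ha => absurd ha (he' a)⟩)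
      exact absurd (hw' a ha) (T.urelements _ _ (not_not.1 hx))

theorem ZU.opair_exists (T : ZU M) (x y : M) : ∃ p, IsOPair p x y := by
  obtain ⟨s, hs⟩ := T.pairing x x
  obtain ⟨t, ht⟩ := T.pairing x y
  obtain ⟨p, hp⟩ := T.pairing s t
  refine ⟨p, hp.1, fun z => ?_⟩
  rw [hp.2]
  constructor
  · rintro (rfl | rfl)
    · exact Or.inl hs
    · exact Or.inr ht
  · rintro (h | h)
    · exact Or.inl (T.upair_unique h hs)
    · exact Or.inr (T.upair_unique h ht)

theorem upair_inj {p x y x' y' : M} (h : IsUPair p x y) (h' : IsUPair p x' y') :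
    (x = x' ∧ y = y') ∨ (x = y' ∧ y = x') := by
  have a1 := (h'.2 x).1 ((h.2 x).2 (Or.inl rfl))
  have a2 := (h'.2 y).1 ((h.2 y).2 (Or.inr rfl))
  have a3 := (h.2 x').1 ((h'.2 x').2 (Or.inl rfl))
  have a4 := (h.2 y').1 ((h'.2 y').2 (Or.inr rfl))
  grind

theorem ZU.opair_inj (T : ZU M) {p x y x' y' : M} (h : IsOPair p x y) (h' : IsOPair p x' y') :
    x = x' ∧ y = y' := by
  obtain ⟨s, hs⟩ := T.pairing x x
  obtain ⟨t, ht⟩ := T.pairing x y
  obtain ⟨s', hs'⟩ := T.pairing x' x'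
  obtain ⟨t', ht'⟩ := T.pairing x' y'
  have a1 := (h'.2 s).1 ((h.2 s).2 (Or.inl hs))
  have a2 := (h'.2 t).1 ((h.2 t).2 (Or.inr ht))
  have a3 := (h.2 s').1 ((h'.2 s').2 (Or.inl hs'))
  have a4 := (h.2 t').1 ((h'.2 t').2 (Or.inr ht'))
  have key : x = x' := by
    rcases a1 with a1 | a1
    · have := upair_inj hs a1; grind
    · have := upair_inj hs a1; grind
  subst key
  refine ⟨rfl, ?_⟩
  rcases a2 with a2 | a2
  · have e1 := upair_inj ht a2
    have : y = x := by grind
    subst this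
    rcases a4 with a4 | a4
    · have := upair_inj ht' a4; grind
    · have := upair_inj ht' a4; grind
  · have := upair_inj ht a2
    grind

/-- the separation principle, for definable relations with class parameters -/
theorem GBcUCollGC.sep (T : GBcUCollGC M C) {P : M → Prop}
    (h : FO (LC C) M (fun p : PUnit.{u+1} × M => P p.2)) (a : M) :
    ∃ b, IsSet b ∧ ∀ x, mem x b ↔ mem x a ∧ P x := by
  classical
  by_cases hex : ∃ x, mem x a ∧ P x
  · obtain ⟨x₀, hx₀, hP₀⟩ := hex
    have ha : IsSet a := fun hu => T.zu.urelements _ _ hu hx₀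
    -- the class function
    obtain ⟨F, hF⟩ := T.compr (P := fun p => ∃ x, (P x ∧ IsOPair p x x) ∨
      (¬ P x ∧ IsOPair p x x₀)) (by
        refine FO.ex ?_
        have h1 : FO (LC C) M (fun p : (PUnit.{u+1} × M) × M => P p.2) :=
          FO.comap h (fun p : (PUnit.{u+1} × M) × M => (p.1.1, p.2))
            (fun _ => vlast M (PUnit.{u+1} × M)) (fun d i => by
              have hi : i = vlast M PUnit.{u+1} := by
                apply Fin.ext
                have := i.2
                simp [Ctx.n] at this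
                simp [vlast, this]
              rw [hi, enc_vlast, enc_vlast])
        refine FO.or (FO.and h1 ?_) (FO.and h1.not ?_)
        · exact FO.isOPair FOF.var.weak FOF.var FOF.var
        · exact FO.isOPair FOF.var.weak FOF.var (FOF.param x₀))
    have hC : ∀ x y, CRel F x y ↔ (P x ∧ y = x) ∨ (¬ P x ∧ y = x₀) := by
      intro x y
      constructor
      · rintro ⟨p, hp, hpF⟩
        obtain ⟨x', h' | h'⟩ := (hF p).1 hpF
        · obtain ⟨rfl, rfl⟩ := T.zu.opair_inj hp h'.2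
          exact Or.inl ⟨h'.1, rfl⟩
        · obtain ⟨rfl, rfl⟩ := T.zu.opair_inj hp h'.2
          exact Or.inr ⟨h'.1, rfl⟩
      · intro hxy
        obtain ⟨p, hp⟩ := T.zu.opair_exists x y
        refine ⟨p, hp, (hF p).2 ⟨x, ?_⟩⟩
        rcases hxy with ⟨h1, rfl⟩ | ⟨h1, rfl⟩
        · exact Or.inl ⟨h1, hp⟩
        · exact Or.inr ⟨h1, hp⟩
    obtain ⟨b, hb, hb'⟩ := T.replacement F a ha (fun x _ => by
      by_cases hx : P x
      · exact ⟨x, (hC _ _).2 (Or.inl ⟨hx, rfl⟩), fun y hy => by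
          rcases (hC _ _).1 hy with h1 | h1
          · exact h1.2
          · exact absurd hx h1.1⟩
      · exact ⟨x₀, (hC _ _).2 (Or.inr ⟨hx, rfl⟩), fun y hy => by
          rcases (hC _ _).1 hy with h1 | h1
          · exact absurd h1.1 hx
          · exact h1.2⟩)
    refine ⟨b, hb, fun y => ?_⟩
    rw [hb']
    constructor
    · rintro ⟨x, hx, hxy⟩
      rcases (hC _ _).1 hxy with ⟨h1, rfl⟩ | ⟨h1, rfl⟩
      · exact ⟨hx, h1⟩
      · exact ⟨hx₀, hP₀⟩
    · rintro ⟨h1, h2⟩
      exact ⟨y, h1, (hC _ _).2 (Or.inl ⟨h2, rfl⟩)⟩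
  · obtain ⟨x, -, ⟨e, -, he, he'⟩, -⟩ := T.zu.infinity
    refine ⟨e, he, fun x => ⟨fun h => absurd h (he' x), fun h => absurd ⟨x, h⟩ hex⟩⟩

/-- the collection principle, for definable relations with class parameters -/
theorem GBcUCollGC.coll (T : GBcUCollGC M C) {P : M → M → Prop}
    (h : FO (LC C) M (fun p : (PUnit.{u+1} × M) × M => P p.1.2 p.2)) (w : M) (hw : IsSet w)
    (hex : ∀ x, mem x w → ∃ y, P x y) :
    ∃ z, IsSet z ∧ ∀ x, mem x w → ∃ y, mem y z ∧ P x y := by
  obtain ⟨R, hR⟩ := T.compr (P := fun p => ∃ x, ∃ y, P x y ∧ IsOPair p x y) (by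
    refine FO.ex ?_
    refine FO.ex ?_
    refine FO.and ?_ (FO.isOPair FOF.var.weak.weak FOF.var.weak FOF.var)
    exact FO.comap h
      (fun p : (((PUnit.{u+1} × M) × M) × M) => ((p.1.1.1, p.1.2), p.2))
      (vsnoc (vsnoc (fun i => i.elim0) (vcast M ((PUnit.{u+1} × M) × M)
        (vlast M (PUnit.{u+1} × M)))) (vlast M ((PUnit.{u+1} × M) × M)))
      (fun d => var_cases (by rw [vsnoc_vlast, enc_vlast, enc_vlast])
        (var_cases (by rw [vsnoc_vcast, vsnoc_vlast, enc_vcast, enc_vcast, enc_vlast, enc_vlast])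
          (fun i => i.elim0))))
  have hC : ∀ x y, CRel R x y ↔ P x y := by
    intro x y
    constructor
    · rintro ⟨p, hp, hpF⟩
      obtain ⟨x', y', h1, h2⟩ := (hR p).1 hpF
      obtain ⟨rfl, rfl⟩ := T.zu.opair_inj hp h2
      exact h1
    · intro h
      obtain ⟨p, hp⟩ := T.zu.opair_exists x y
      exact ⟨p, hp, (hR p).2 ⟨x, y, h, hp⟩⟩
  obtain ⟨z, hz, hz'⟩ := T.collection R w hw (fun x hx => by
    obtain ⟨y, hy⟩ := hex x hx
    exact ⟨y, (hC _ _).2 hy⟩)
  refine ⟨z, hz, fun x hx => ?_⟩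
  obtain ⟨y, hy, hy'⟩ := hz' x hx
  exact ⟨y, hy, (hC _ _).1 hy'⟩

end

end Pool.Agent.Urel
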