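import Pool.Agent.Urel.Sentence

/-!
# ZFCU passes to elementary substructures; small models
-/

namespace Pool.Agent.Urel

open FirstOrder FirstOrder.Language

universe u v w

/-- instance of a formula with one distinguished variable -/
def fSch1 {n : ℕ} (φ : LU.Formula ℕ) (i : Fin n) : LU.BoundedFormula ℕ n :=
  BoundedFormula.relabel (fun k : ℕ => match k with
    | 0 => (Sum.inr i : ℕ ⊕ Fin n)
    | k + 1 => Sum.inl k) φ

/-- instance of a formula with two distinguished variables -/
def fSch2 {n : ℕ} (φ : LU.Formula ℕ) (i j : Fin n) : LU.BoundedFormula ℕ n :=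
  BoundedFormula.relabel (fun k : ℕ => match k with
    | 0 => (Sum.inr i : ℕ ⊕ Fin n)
    | 1 => Sum.inr j
    | k + 2 => Sum.inl k) φ

section

variable {M : Type u} [UStr M] {n : ℕ} {v : ℕ → M} {xs : Fin n → M}

@[simp] theorem realize_fSch1 (φ : LU.Formula ℕ) (i : Fin n) :
    (fSch1 φ i).Realize v xs ↔ φ.Realize (cons (xs i) v) := by
  unfold fSch1
  rw [BoundedFormula.realize_relabel]
  unfold Formula.Realize
  rw [iff_iff_eq]
  congr 1
  · funext k
    match k with
    | 0 => rfl
    | k + 1 => rfl
  · exact Subsingleton.elim (α := Fin 0 → M) _ _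

@[simp] theorem realize_fSch2 (φ : LU.Formula ℕ) (i j : Fin n) :
    (fSch2 φ i j).Realize v xs ↔ φ.Realize (cons (xs i) (cons (xs j) v)) := by
  unfold fSch2
  rw [BoundedFormula.realize_relabel]
  unfold Formula.Realize
  rw [iff_iff_eq]
  congr 1
  · funext k
    match k with
    | 0 => rfl
    | 1 => rfl
    | k + 2 => rfl
  · exact Subsingleton.elim (α := Fin 0 → M) _ _

end

/-- `r` well-orders `x` -/
def fWO {α : Type} {n : ℕ} (r x : Fin n) : LU.BoundedFormula α n :=
  ((fMem (cs (cs (la n))) (cs (cs (cs x)))).imp ((fMem (cs (la (n + 1))) (cs (cs (cs x)))).imp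
    ((fMem (la (n + 2)) (cs (cs (cs x)))).imp
      ((fSRel (cs (cs (cs r))) (cs (cs (la n))) (cs (la (n + 1)))).imp
        ((fSRel (cs (cs (cs r))) (cs (la (n + 1))) (la (n + 2))).imp
          (fSRel (cs (cs (cs r))) (cs (cs (la n))) (la (n + 2)))))))).all.all.all ⊓
  (((fMem (la n) (cs x)).imp (fSRel (cs r) (la n) (la n)).not).all ⊓
  (((fMem (cs (la n)) (cs (cs x))).imp ((fMem (la (n + 1)) (cs (cs x))).imp
    ((fEq (cs (la n)) (la (n + 1))).not.imp
      ((fSRel (cs (cs r)) (cs (la n)) (la (n + 1))) ⊔
        (fSRel (cs (cs r)) (la (n + 1)) (cs (la n))))))).all.all ⊓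
  ((fUre (la n)).not.imp (((fMem (la (n + 1)) (cs (la n))).ex).imp
    ((((fMem (la (n + 1)) (cs (la n))).imp (fMem (la (n + 1)) (cs (cs x)))).all).imp
      ((fMem (la (n + 1)) (cs (la n)) ⊓
        ((fMem (la (n + 2)) (cs (cs (la n)))).imp
          ((fEq (la (n + 2)) (cs (la (n + 1)))).not.imp
            (fSRel (cs (cs (cs r))) (cs (la (n + 1))) (la (n + 2))))).all).ex)))).all))

theorem realize_fWO {M : Type u} [UStr M] {α : Type} {n : ℕ} {v : α → M} {xs : Fin n → M}
    (r x : Fin n) : (fWO r x).Realize v xs ↔ WellOrders (xs r) (xs x) := by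
  simp only [fWO, WellOrders, IsSet, BoundedFormula.realize_ex, BoundedFormula.realize_not,
    BoundedFormula.realize_all, BoundedFormula.realize_inf, BoundedFormula.realize_imp,
    BoundedFormula.realize_sup, realize_fUre, realize_fMem, realize_fSRel, realize_fEq,
    Fin.snoc_castSucc, Fin.snoc_last, ne_eq]

section

variable {M : Type w} {N : Type u} [UStr M] [UStr N]

theorem ZU.of_elementary (f : M ↪ₑ[LU] N) (h : ZU N) : ZU M := by
  have hmem : ∀ x y : M, mem (f x) (f y) ↔ mem x y := by
    intro x y
    have := f.map_boundedFormula (α := Empty) (fMem (n := 2) 0 1) default ![x, y]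
    rw [realize_fMem, realize_fMem] at this
    exact this
  have hure : ∀ x : M, ure (f x) ↔ ure x := by
    intro x
    have := f.map_boundedFormula (α := Empty) (fUre (n := 1) 0) default ![x]
    rw [realize_fUre, realize_fUre] at this
    exact this
  refine ⟨?_, ?_, ?_, ?_, ?_, ?_, ?_, ?_⟩
  · intro x y hy hxy
    exact h.urelements _ _ ((hure y).2 hy) ((hmem x y).2 hxy)
  · intro x y hx hy hxy
    apply f.injective
    refine h.extensionality _ _ (fun hu => hx ((hure x).1 hu)) (fun hu => hy ((hure y).1 hu)) ?_
    have := f.map_boundedFormula (α := Empty)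
      ((fMem (la 2) (cs 0)).iff (fMem (la 2) (cs 1))).all default ![x, y]
    simp only [BoundedFormula.realize_all, BoundedFormula.realize_iff, realize_fMem,
      Fin.snoc_castSucc, Fin.snoc_last] at this
    exact this.2 hxy
  · rintro x ⟨y, hy⟩
    have := f.map_boundedFormula (α := Empty)
      ((fMem (la 1) (cs 0)) ⊓ ((fMem (la 2) (cs (cs 0))).imp (fMem (la 2) (cs (la 1))).not).all).ex
      default ![x]
    simp only [BoundedFormula.realize_all, BoundedFormula.realize_ex, BoundedFormula.realize_imp,
      BoundedFormula.realize_not, BoundedFormula.realize_inf, realize_fMem,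
      Fin.snoc_castSucc, Fin.snoc_last] at this
    exact this.1 (h.foundation _ ⟨f y, (hmem y x).2 hy⟩)
  · intro x y
    have := f.map_boundedFormula (α := Empty) (fUPair (la 2) (cs 0) (cs 1)).ex default ![x, y]
    simp only [BoundedFormula.realize_ex, realize_fUPair,
      Fin.snoc_castSucc, Fin.snoc_last] at this
    exact this.1 (h.pairing _ _)
  · intro x hx
    have := f.map_boundedFormula (α := Empty)
      ((fUre (la 1)).not ⊓ ((fMem (la 2) (cs (la 1))).iff
        ((fMem (la 3) (cs (cs (cs 0)))) ⊓ (fMem (cs (la 2)) (la 3))).ex).all).ex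
      default ![x]
    simp only [BoundedFormula.realize_all, BoundedFormula.realize_ex, BoundedFormula.realize_iff,
      BoundedFormula.realize_not, BoundedFormula.realize_inf, realize_fMem, realize_fUre,
      Fin.snoc_castSucc, Fin.snoc_last] at this
    exact this.1 (h.union _ (fun hu => hx ((hure x).1 hu)))
  · intro x hx
    have := f.map_boundedFormula (α := Empty)
      ((fUre (la 1)).not ⊓ ((fMem (la 2) (cs (la 1))).iff
        ((fUre (la 2)).not ⊓
          ((fMem (la 3) (cs (la 2))).imp (fMem (la 3) (cs (cs (cs 0))))).all)).all).ex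
      default ![x]
    simp only [BoundedFormula.realize_all, BoundedFormula.realize_ex, BoundedFormula.realize_iff,
      BoundedFormula.realize_imp,
      BoundedFormula.realize_not, BoundedFormula.realize_inf, realize_fMem, realize_fUre,
      Fin.snoc_castSucc, Fin.snoc_last] at this
    exact this.1 (h.powerset _ (fun hu => hx ((hure x).1 hu)))
  · have := f.map_boundedFormula (α := Empty)
      ((fUre (la 0)).not ⊓
        ((fMem (la 1) (cs (la 0)) ⊓ ((fUre (la 1)).not ⊓ (fMem (la 2) (cs (la 1))).not.all)).ex ⊓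
        ((fMem (la 1) (cs (la 0))).imp
          ((fMem (la 2) (cs (cs (la 0)))) ⊓ ((fUre (la 2)).not ⊓
            ((fMem (la 3) (cs (la 2))).iff
              ((fMem (la 3) (cs (cs (la 1)))) ⊔ (fEq (la 3) (cs (cs (la 1)))))).all)).ex).all)).ex
      default default
    simp only [BoundedFormula.realize_all, BoundedFormula.realize_ex, BoundedFormula.realize_iff,
      BoundedFormula.realize_imp, BoundedFormula.realize_sup,
      BoundedFormula.realize_not, BoundedFormula.realize_inf, realize_fMem, realize_fUre,
      realize_fEq, Fin.snoc_castSucc, Fin.snoc_last] at this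
    exact this.1 h.infinity
  · intro φ v a ha
    have := f.map_boundedFormula
      ((fUre (la 1)).not ⊓ ((fMem (la 2) (cs (la 1))).iff
        ((fMem (la 2) (cs (cs 0))) ⊓ fSch1 φ (la 2))).all).ex v ![a]
    simp only [BoundedFormula.realize_all, BoundedFormula.realize_ex, BoundedFormula.realize_iff,
      BoundedFormula.realize_not, BoundedFormula.realize_inf, realize_fMem, realize_fUre,
      realize_fSch1, Fin.snoc_castSucc, Fin.snoc_last] at this
    exact this.1 (h.separation φ (f ∘ v) _ (fun hu => ha ((hure a).1 hu)))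

theorem ZFCU.of_elementary (f : M ↪ₑ[LU] N) (h : ZFCU N) : ZFCU M := by
  have hmem : ∀ x y : M, mem (f x) (f y) ↔ mem x y := by
    intro x y
    have := f.map_boundedFormula (α := Empty) (fMem (n := 2) 0 1) default ![x, y]
    rw [realize_fMem, realize_fMem] at this
    exact this
  have hure : ∀ x : M, ure (f x) ↔ ure x := by
    intro x
    have := f.map_boundedFormula (α := Empty) (fUre (n := 1) 0) default ![x]
    rw [realize_fUre, realize_fUre] at this
    exact this
  refine ⟨ZU.of_elementary f h.zu, ?_, ?_, ?_⟩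
  · intro φ v w hw hex
    have h1 := f.map_boundedFormula
      ((fMem (la 1) (cs 0)).imp
        (fSch2 φ (cs (la 1)) (la 2) ⊓
          ((fSch2 φ (cs (cs (la 1))) (la 3)).imp (fEq (la 3) (cs (la 2)))).all).ex).all v ![w]
    have h2 := f.map_boundedFormula
      ((fUre (la 1)).not ⊓ ((fMem (la 2) (cs (la 1))).iff
        ((fMem (la 3) (cs (cs (cs 0)))) ⊓ fSch2 φ (la 3) (cs (la 2))).ex).all).ex v ![w]
    simp only [BoundedFormula.realize_all, BoundedFormula.realize_ex, BoundedFormula.realize_iff,
      BoundedFormula.realize_not, BoundedFormula.realize_inf, BoundedFormula.realize_imp,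
      realize_fMem, realize_fUre, realize_fEq,
      realize_fSch2, Fin.snoc_castSucc, Fin.snoc_last] at h1 h2
    refine h2.1 (h.replacement φ (f ∘ v) (f w) (fun hu => hw ((hure w).1 hu)) ?_)
    exact h1.2 (fun x hx => hex x hx)
  · intro x hx
    have := f.map_boundedFormula (α := Empty)
      ((fUre (la 1)).not ⊓ fWO (la 1) (cs 0)).ex default ![x]
    simp only [BoundedFormula.realize_ex,
      BoundedFormula.realize_not, BoundedFormula.realize_inf, realize_fUre,
      realize_fWO, Fin.snoc_castSucc, Fin.snoc_last] at this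
    exact this.1 (h.choice _ (fun hu => hx ((hure x).1 hu)))
  · intro φ v w hw hex
    have h1 := f.map_boundedFormula
      ((fMem (la 1) (cs 0)).imp (fSch2 φ (cs (la 1)) (la 2)).ex).all v ![w]
    have h2 := f.map_boundedFormula
      ((fUre (la 1)).not ⊓ ((fMem (la 2) (cs (cs 0))).imp
        ((fMem (la 3) (cs (cs (la 1)))) ⊓ fSch2 φ (cs (la 2)) (la 3)).ex).all).ex v ![w]
    simp only [BoundedFormula.realize_all, BoundedFormula.realize_ex,
      BoundedFormula.realize_not, BoundedFormula.realize_inf, BoundedFormula.realize_imp,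
      realize_fMem, realize_fUre,
      realize_fSch2, Fin.snoc_castSucc, Fin.snoc_last] at h1 h2
    exact h2.1 (h.collection φ (f ∘ v) (f w) (fun hu => hw ((hure w).1 hu))
      (h1.2 (fun x hx => hex x hx)))

end

/-- a model of ZFCU in any universe in which the separating sentence fails -/
theorem exists_small_model : ∃ (M : Type w) (_ : UStr M), ZFCU M ∧ ¬ (M ⊨ sigma) := by
  obtain ⟨S, hS⟩ := exists_small_elementarySubstructure LU (NU ℝ)
  have hS' : Small.{w} S := by
    exact @small_lift S hS
  let M := Shrink.{w} S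
  let e : M ≃ S := (equivShrink S).symm
  let _ : UStr M := ⟨fun x => ure (e x : NU ℝ), fun x y => mem (e x : NU ℝ) (e y : NU ℝ)⟩
  let g : M ≃[LU] S :=
    { toEquiv := e
      map_fun' := fun f _ => Empty.elim f
      map_rel' := by
        intro n r xs
        cases r <;> rfl }
  let f : M ↪ₑ[LU] NU ℝ := S.subtype.comp g.toElementaryEmbedding
  refine ⟨M, inferInstance, ZFCU.of_elementary f NU.zfcu, fun h => sigma_false ?_⟩
  exact (f.map_sentence sigma).1 h

theorem not_conservative : ¬ Conservative.{u, v, w} := by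
  intro h
  obtain ⟨M, _, hM, hM'⟩ := exists_small_model.{w}
  exact hM' (h sigma (fun M C _ _ T => sigma_true T) M hM)

end Pool.Agent.Urel
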